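import Pool.Agent.U868.DG.Energy

/-!
# The energy of superpositions of dyadic block spins
-/

set_option autoImplicit false

open Real

namespace Pool.Agent.U868.DG

theorem card_scales (m X Y : ℕ) (h : X < Y) :
    2 ^ ((Finset.univ : Finset (Fin m)).filter
      (fun j : Fin m => X ≤ 2 ^ (j : ℕ) ∧ 2 ^ (j : ℕ) < Y)).card ≤ 2 * (Y - X) := by
  set J := (Finset.univ : Finset (Fin m)).filter
      (fun j : Fin m => X ≤ 2 ^ (j : ℕ) ∧ 2 ^ (j : ℕ) < Y) with hJ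
  rcases J.eq_empty_or_nonempty with h0 | h0
  · rw [h0]
    simp only [Finset.card_empty, pow_zero]
    omega
  · have ha := J.min'_mem h0
    have hM := J.max'_mem h0
    have haM : J.min' h0 ≤ J.max' h0 := J.min'_le _ hM
    set a := J.min' h0 with had
    set M := J.max' h0 with hMd
    have hsub : J ⊆ Finset.Icc a M := by
      intro j hj
      rw [Finset.mem_Icc]
      exact ⟨J.min'_le j hj, J.le_max' j hj⟩
    have hcard := Finset.card_le_card hsub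
    rw [Fin.card_Icc] at hcard
    rw [hJ, Finset.mem_filter] at ha hM
    obtain ⟨t, ht⟩ : ∃ t : ℕ, (M : ℕ) = a + t := Nat.exists_eq_add_of_le haM
    have h1 : 2 ^ J.card ≤ 2 ^ (t + 1) := Nat.pow_le_pow_right (by norm_num) (by omega)
    have h2 : 2 ^ (M : ℕ) = 2 ^ (a : ℕ) * 2 ^ t := by rw [ht, pow_add]
    have h3 : 1 ≤ 2 ^ (a : ℕ) := Nat.one_le_two_pow
    have h4 : 1 ≤ 2 ^ t := Nat.one_le_two_pow
    have h5 : 2 ^ (a : ℕ) + 2 ^ t ≤ 2 ^ (a : ℕ) * 2 ^ t + 1 := by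
      obtain ⟨u, hu⟩ : ∃ u, 2 ^ (a : ℕ) = u + 1 := ⟨2 ^ (a : ℕ) - 1, by omega⟩
      obtain ⟨v, hv⟩ : ∃ v, 2 ^ t = v + 1 := ⟨2 ^ t - 1, by omega⟩
      rw [hu, hv]
      have : (u + 1) * (v + 1) + 1 = u * v + (u + 1 + (v + 1)) := by ring
      rw [this]
      exact Nat.le_add_left _ _
    have h6 := ha.2.1
    have h7 := hM.2.2
    rw [h2] at h7
    have h8 : 2 ^ (t + 1) = 2 * 2 ^ t := by rw [pow_succ]; ring
    rw [h8] at h1
    omega

theorem chi_eq_natAbs (A : ℕ) (x : ℤ) : chi A x = if x.natAbs ≤ A then 1 else 0 := by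
  unfold chi
  have : (|x| ≤ (A : ℤ)) ↔ x.natAbs ≤ A := by
    rw [Int.abs_eq_natAbs]
    exact Nat.cast_le
  simp only [this]

/-- number of dyadic scales separating two points -/
theorem card_sep (m : ℕ) (x y : ℤ) (hxy : x ≠ y) :
    2 ^ ((Finset.univ : Finset (Fin m)).filter
      (fun j : Fin m => chi (2 ^ (j : ℕ)) x ≠ chi (2 ^ (j : ℕ)) y)).card ≤ 2 * (x - y).natAbs := by
  rcases lt_trichotomy x.natAbs y.natAbs with h | h | h
  · refine le_trans ?_ (le_trans (card_scales m _ _ h) ?_)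
    · apply Nat.pow_le_pow_right (by norm_num)
      apply Finset.card_le_card
      intro j hj
      rw [Finset.mem_filter] at hj ⊢
      refine ⟨hj.1, ?_⟩
      have h1 := hj.2
      rw [chi_eq_natAbs, chi_eq_natAbs] at h1
      split_ifs at h1 with a b b
      · exact absurd rfl h1
      · omega
      · omega
      · exact absurd rfl h1
    · omega
  · have : (Finset.univ : Finset (Fin m)).filter
      (fun j : Fin m => chi (2 ^ (j : ℕ)) x ≠ chi (2 ^ (j : ℕ)) y) = ∅ := by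
      apply Finset.filter_false_of_mem
      intro j _
      rw [chi_eq_natAbs, chi_eq_natAbs, h]
      simp
    rw [this]
    simp only [Finset.card_empty, pow_zero]
    omega
  · refine le_trans ?_ (le_trans (card_scales m _ _ h) ?_)
    · apply Nat.pow_le_pow_right (by norm_num)
      apply Finset.card_le_card
      intro j hj
      rw [Finset.mem_filter] at hj ⊢
      refine ⟨hj.1, ?_⟩
      have h1 := hj.2
      rw [chi_eq_natAbs, chi_eq_natAbs] at h1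
      split_ifs at h1 with a b b
      · exact absurd rfl h1
      · omega
      · omega
      · exact absurd rfl h1
    · omega

/-- the superposition of blocks -/
noncomputable def phi {m : ℕ} (n : Fin m → ℤ) (x : ℤ) : ℤ := ∑ j, n j * chi (2 ^ (j : ℕ)) x

theorem chi_diff_sq (A : ℕ) (x y : ℤ) :
    (((chi A x : ℤ) : ℝ) - ((chi A y : ℤ) : ℝ)) ^ 2 = if chi A x ≠ chi A y then 1 else 0 := by
  unfold chi
  split_ifs <;> simp_all

/-- pointwise bound of the increments -/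
theorem phi_diff_sq {m : ℕ} (n : Fin m → ℤ) (x y : ℤ) :
    (((phi n x : ℤ) : ℝ) - ((phi n y : ℤ) : ℝ)) ^ 2 ≤
      (((Finset.univ : Finset (Fin m)).filter
        (fun j : Fin m => chi (2 ^ (j : ℕ)) x ≠ chi (2 ^ (j : ℕ)) y)).card : ℝ) *
      ∑ j, (n j : ℝ) ^ 2 *
        (((chi (2 ^ (j : ℕ)) x : ℤ) : ℝ) - ((chi (2 ^ (j : ℕ)) y : ℤ) : ℝ)) ^ 2 := by
  set J := (Finset.univ : Finset (Fin m)).filter
        (fun j : Fin m => chi (2 ^ (j : ℕ)) x ≠ chi (2 ^ (j : ℕ)) y) with hJ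
  set d : Fin m → ℝ := fun j => ((chi (2 ^ (j : ℕ)) x : ℤ) : ℝ) - ((chi (2 ^ (j : ℕ)) y : ℤ) : ℝ)
    with hd
  have h1 : ((phi n x : ℤ) : ℝ) - ((phi n y : ℤ) : ℝ) = ∑ j, (n j : ℝ) * d j := by
    unfold phi
    push_cast
    rw [← Finset.sum_sub_distrib]
    refine Finset.sum_congr rfl fun j _ => ?_
    simp only [hd]
    ring
  have h2 : ∑ j, (n j : ℝ) * d j = ∑ j ∈ J, (n j : ℝ) * d j := by
    rw [hJ, Finset.sum_filter]
    refine Finset.sum_congr rfl fun j _ => ?_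
    split_ifs with h
    · rfl
    · have : chi (2 ^ (j : ℕ)) x = chi (2 ^ (j : ℕ)) y := by simpa using h
      simp only [hd, this, sub_self, mul_zero]
  have h3 : ∑ j, (n j : ℝ) ^ 2 * d j ^ 2 = ∑ j ∈ J, ((n j : ℝ) * d j) ^ 2 := by
    rw [hJ, Finset.sum_filter]
    refine Finset.sum_congr rfl fun j _ => ?_
    split_ifs with h
    · ring
    · have : chi (2 ^ (j : ℕ)) x = chi (2 ^ (j : ℕ)) y := by simpa using h
      simp only [hd, this, sub_self]
      ring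
  rw [h1, h2]
  show _ ≤ (J.card : ℝ) * ∑ j, (n j : ℝ) ^ 2 * d j ^ 2
  rw [h3]
  exact sq_sum_le_card_mul_sum_sq

theorem sep_real (ε : ℝ) (hε : 0 < ε) (m : ℕ) (x y : ℤ) (hxy : x ≠ y) :
    (((Finset.univ : Finset (Fin m)).filter
        (fun j : Fin m => chi (2 ^ (j : ℕ)) x ≠ chi (2 ^ (j : ℕ)) y)).card : ℝ) ≤
      (2 ^ ε / (ε * log 2)) * |((x - y : ℤ) : ℝ)| ^ ε := by
  have h1 := card_sep m x y hxy
  set r := ((Finset.univ : Finset (Fin m)).filter
      (fun j : Fin m => chi (2 ^ (j : ℕ)) x ≠ chi (2 ^ (j : ℕ)) y)).card with hr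
  have h2 : (2 : ℝ) ^ r ≤ 2 * |((x - y : ℤ) : ℝ)| := by
    have : ((2 ^ r : ℕ) : ℝ) ≤ ((2 * (x - y).natAbs : ℕ) : ℝ) := by exact_mod_cast h1
    push_cast at this
    have h3 : (((x - y).natAbs : ℕ) : ℝ) = |((x - y : ℤ) : ℝ)| := by
      rw [Nat.cast_natAbs, Int.cast_abs]
    rw [← h3]
    exact this
  have hpos : 0 < |((x - y : ℤ) : ℝ)| := by
    apply abs_pos.2
    exact_mod_cast sub_ne_zero.2 hxy
  have h3 : (r : ℝ) * log 2 ≤ log (2 * |((x - y : ℤ) : ℝ)|) := by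
    have := Real.log_le_log (by positivity) h2
    rwa [Real.log_pow] at this
  have h4 := Real.log_le_rpow_div (x := 2 * |((x - y : ℤ) : ℝ)|) (by positivity) hε
  have hl2 : 0 < log 2 := Real.log_pos (by norm_num)
  have h5 : (r : ℝ) * log 2 ≤ (2 * |((x - y : ℤ) : ℝ)|) ^ ε / ε := h3.trans h4
  rw [Real.mul_rpow (by norm_num) hpos.le] at h5
  have h6 : (r : ℝ) ≤ (2 ^ ε * |((x - y : ℤ) : ℝ)| ^ ε / ε) / log 2 := by
    rw [le_div_iff₀ hl2]; exact h5
  refine h6.trans (le_of_eq ?_)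
  field_simp

/-- energy bound for the superposition of dyadic blocks, uniform in the number of blocks -/
theorem En_phi (α ε : ℝ) (hε : 0 < ε) (hα : 2 < α - ε) (m : ℕ) (n : Fin m → ℤ) :
    En α (fun x => ((phi n x : ℤ) : ℝ)) ≤
      ((2 ^ ε / (ε * log 2)) * ∑' k : ℤ, 2 * |(k : ℝ)| ^ (-(α - ε - 1))) * ∑ j, (n j : ℝ) ^ 2 := by
  set K : ℝ := 2 ^ ε / (ε * log 2) with hK
  have hl2 : 0 < log 2 := Real.log_pos (by norm_num)
  have hK0 : 0 ≤ K := by positivity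
  have hterm : ∀ p : ℤ × ℤ, term α (fun x => ((phi n x : ℤ) : ℝ)) p ≤
      ∑ j, K * ((n j : ℝ) ^ 2 * term (α - ε) (fun x => ((chi (2 ^ (j : ℕ)) x : ℤ) : ℝ)) p) := by
    intro p
    rcases eq_or_ne p.1 p.2 with h | h
    · have h1 : ∀ (a : ℝ) (f : ℤ → ℝ), term a f p = 0 := by
        intro a f; unfold term; rw [if_pos h]
      simp only [h1]
      simp
    · have hpos : 0 < |((p.1 - p.2 : ℤ) : ℝ)| := by
        apply abs_pos.2
        exact_mod_cast sub_ne_zero.2 h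
      simp only [term_eq]
      have h1 := phi_diff_sq n p.1 p.2
      have h2 := sep_real ε hε m p.1 p.2 h
      rw [← hK] at h2
      set D : ℝ := ∑ j, (n j : ℝ) ^ 2 * (((chi (2 ^ (j : ℕ)) p.1 : ℤ) : ℝ) -
        ((chi (2 ^ (j : ℕ)) p.2 : ℤ) : ℝ)) ^ 2 with hD
      have hD0 : 0 ≤ D := Finset.sum_nonneg fun j _ => by positivity
      have h3 : (((phi n p.1 : ℤ) : ℝ) - ((phi n p.2 : ℤ) : ℝ)) ^ 2 ≤
          (K * |((p.1 - p.2 : ℤ) : ℝ)| ^ ε) * D :=
        h1.trans (mul_le_mul_of_nonneg_right h2 hD0)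
      calc |((p.1 - p.2 : ℤ) : ℝ)| ^ (-α) * (((phi n p.1 : ℤ) : ℝ) - ((phi n p.2 : ℤ) : ℝ)) ^ 2
          ≤ |((p.1 - p.2 : ℤ) : ℝ)| ^ (-α) * ((K * |((p.1 - p.2 : ℤ) : ℝ)| ^ ε) * D) :=
            mul_le_mul_of_nonneg_left h3 (Real.rpow_nonneg hpos.le _)
        _ = K * ((|((p.1 - p.2 : ℤ) : ℝ)| ^ (-α) * |((p.1 - p.2 : ℤ) : ℝ)| ^ ε) * D) := by ring
        _ = K * (|((p.1 - p.2 : ℤ) : ℝ)| ^ (-(α - ε)) * D) := by
            rw [← Real.rpow_add hpos]
            congr 3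
            ring
        _ = ∑ j, K * ((n j : ℝ) ^ 2 * (|((p.1 - p.2 : ℤ) : ℝ)| ^ (-(α - ε)) *
              (((chi (2 ^ (j : ℕ)) p.1 : ℤ) : ℝ) - ((chi (2 ^ (j : ℕ)) p.2 : ℤ) : ℝ)) ^ 2)) := by
            rw [hD, Finset.mul_sum, Finset.mul_sum]
            refine Finset.sum_congr rfl fun j _ => ?_
            ring
  have hs : ∀ j : Fin m, Summable
      (term (α - ε) (fun x => ((chi (2 ^ (j : ℕ)) x : ℤ) : ℝ))) := fun j =>
    summable_term _ (by linarith) _ (chi_sq_summable _)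
  have hs2 : ∀ j ∈ (Finset.univ : Finset (Fin m)), Summable fun p : ℤ × ℤ =>
      K * ((n j : ℝ) ^ 2 * term (α - ε) (fun x => ((chi (2 ^ (j : ℕ)) x : ℤ) : ℝ)) p) :=
    fun j _ => ((hs j).mul_left _).mul_left _
  have hs3 : Summable fun p : ℤ × ℤ =>
      ∑ j, K * ((n j : ℝ) ^ 2 * term (α - ε) (fun x => ((chi (2 ^ (j : ℕ)) x : ℤ) : ℝ)) p) :=
    summable_sum hs2
  have hs4 : Summable (term α (fun x => ((phi n x : ℤ) : ℝ))) :=
    Summable.of_nonneg_of_le (term_nonneg _ _) hterm hs3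
  calc En α (fun x => ((phi n x : ℤ) : ℝ))
      ≤ ∑' p : ℤ × ℤ, ∑ j, K * ((n j : ℝ) ^ 2 *
          term (α - ε) (fun x => ((chi (2 ^ (j : ℕ)) x : ℤ) : ℝ)) p) :=
        hs4.tsum_le_tsum hterm hs3
    _ = ∑ j, K * ((n j : ℝ) ^ 2 * En (α - ε) (fun x => ((chi (2 ^ (j : ℕ)) x : ℤ) : ℝ))) := by
        rw [Summable.tsum_finsetSum hs2]
        refine Finset.sum_congr rfl fun j _ => ?_
        rw [tsum_mul_left, tsum_mul_left]
        rfl
    _ ≤ ∑ j, K * ((n j : ℝ) ^ 2 * ∑' k : ℤ, 2 * |(k : ℝ)| ^ (-(α - ε - 1))) := by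
        refine Finset.sum_le_sum fun j _ => ?_
        apply mul_le_mul_of_nonneg_left _ hK0
        apply mul_le_mul_of_nonneg_left _ (sq_nonneg _)
        exact En_chi (α - ε) hα (2 ^ (j : ℕ))
    _ = _ := by
        rw [Finset.mul_sum]
        refine Finset.sum_congr rfl fun j _ => ?_
        ring

end Pool.Agent.U868.DG
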