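import Mathlib

/-!
# Product sums over `Fin m → ℤ`
-/

set_option autoImplicit false

open Real

namespace Pool.Agent.U868.DG

theorem hasSum_mul_prod {ι κ : Type*} {f : ι → ℝ} {g : κ → ℝ} {s t : ℝ} (hf : HasSum f s)
    (hg : HasSum g t) : HasSum (fun p : ι × κ => f p.1 * g p.2) (s * t) :=
  hf.mul hg (summable_mul_of_summable_norm hf.summable.norm hg.summable.norm)

/-- moments of order 0, 1, 2 of the sum of the coordinates under a product of centred weights -/
theorem fin_sums (g : ℤ → ℝ) (z y : ℝ) (h0 : HasSum g z)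
    (h1 : HasSum (fun k : ℤ => (k : ℝ) * g k) 0)
    (h2 : HasSum (fun k : ℤ => (k : ℝ) ^ 2 * g k) y) (m : ℕ) :
    HasSum (fun n : Fin m → ℤ => ∏ i, g (n i)) (z ^ m) ∧
    HasSum (fun n : Fin m → ℤ => (∑ i, (n i : ℝ)) * ∏ i, g (n i)) 0 ∧
    HasSum (fun n : Fin m → ℤ => (∑ i, (n i : ℝ)) ^ 2 * ∏ i, g (n i)) (m * y * z ^ (m - 1)) := by
  induction m with
  | zero =>
    refine ⟨?_, ?_, ?_⟩
    · convert hasSum_unique (fun n : Fin 0 → ℤ => ∏ i, g (n i)) using 1
      simp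
    · convert hasSum_unique (fun n : Fin 0 → ℤ => (∑ i, (n i : ℝ)) * ∏ i, g (n i)) using 1
      simp
    · convert hasSum_unique (fun n : Fin 0 → ℤ => (∑ i, (n i : ℝ)) ^ 2 * ∏ i, g (n i)) using 1
      simp
  | succ m ih =>
    obtain ⟨i0, i1, i2⟩ := ih
    let e : (ℤ × (Fin m → ℤ)) ≃ (Fin (m + 1) → ℤ) := Fin.consEquiv (fun _ => ℤ)
    have he : ∀ p : ℤ × (Fin m → ℤ), e p = Fin.cons p.1 p.2 := fun p => rfl
    refine ⟨?_, ?_, ?_⟩
    · rw [← e.hasSum_iff]
      have := hasSum_mul_prod h0 i0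
      convert this using 1
      · funext p
        simp only [Function.comp, he, Fin.prod_univ_succ, Fin.cons_zero, Fin.cons_succ]
      · ring
    · rw [← e.hasSum_iff]
      have := (hasSum_mul_prod h1 i0).add (hasSum_mul_prod h0 i1)
      convert this using 1
      · funext p
        simp only [Function.comp, he, Fin.prod_univ_succ, Fin.cons_zero, Fin.cons_succ,
          Fin.sum_univ_succ]
        ring
      · ring
    · rw [← e.hasSum_iff]
      have := ((hasSum_mul_prod h2 i0).add ((hasSum_mul_prod h1 i1).mul_left 2)).add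
        (hasSum_mul_prod h0 i2)
      convert this using 1
      · funext p
        simp only [Function.comp, he, Fin.prod_univ_succ, Fin.cons_zero, Fin.cons_succ,
          Fin.sum_univ_succ]
        ring
      · rcases m with _ | m
        · simp
        · simp only [Nat.add_sub_cancel]
          push_cast
          ring

/-- Gaussian weights are summable on `ℤ` -/
theorem summable_gauss (c : ℝ) (hc : 0 < c) : Summable fun k : ℤ => exp (-(c * (k : ℝ) ^ 2)) := by
  have h : Summable fun k : ℤ => exp (-(c * |(k : ℝ)|)) := by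
    have hn : Summable fun n : ℕ => exp (-(c * (n : ℝ))) := by
      have := summable_geometric_of_lt_one (r := exp (-c)) (exp_pos _).le (by
        rw [exp_lt_one_iff]; linarith)
      refine this.congr fun n => ?_
      rw [← exp_nat_mul]
      congr 1
      ring
    refine Summable.of_nat_of_neg ?_ ?_
    · refine hn.congr fun n => ?_
      simp
    · refine hn.congr fun n => ?_
      simp
  refine Summable.of_nonneg_of_le (fun _ => (exp_pos _).le) (fun k => ?_) h
  rw [exp_le_exp, neg_le_neg_iff]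
  apply mul_le_mul_of_nonneg_left _ hc.le
  rcases eq_or_ne k 0 with hk | hk
  · simp [hk]
  · have h1 : (1 : ℝ) ≤ |(k : ℝ)| := by
      exact_mod_cast Int.one_le_abs hk
    rw [← sq_abs]
    nlinarith

theorem one_add_le_exp (δ t : ℝ) (hδ : 0 < δ) (hδ1 : δ ≤ 1) :
    1 + t ≤ (1 / δ) * exp (δ * t) := by
  have h := Real.add_one_le_exp (δ * t)
  rw [div_mul_eq_mul_div, one_mul, le_div_iff₀ hδ]
  nlinarith

theorem summable_sq_gauss (c : ℝ) (hc : 0 < c) :
    Summable fun k : ℤ => (k : ℝ) ^ 2 * exp (-(c * (k : ℝ) ^ 2)) := by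
  set δ : ℝ := min 1 (c / 2) with hδd
  have hδ : 0 < δ := lt_min one_pos (by linarith)
  have hδ1 : δ ≤ 1 := min_le_left _ _
  have hδc : δ ≤ c / 2 := min_le_right _ _
  refine Summable.of_nonneg_of_le (fun _ => by positivity) (fun k => ?_)
    ((summable_gauss (c / 2) (by linarith)).mul_left (1 / δ))
  have h1 := one_add_le_exp δ ((k : ℝ) ^ 2) hδ hδ1
  calc (k : ℝ) ^ 2 * exp (-(c * (k : ℝ) ^ 2))
      ≤ ((1 / δ) * exp (δ * (k : ℝ) ^ 2)) * exp (-(c * (k : ℝ) ^ 2)) := by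
        apply mul_le_mul_of_nonneg_right _ (exp_pos _).le
        linarith
    _ = (1 / δ) * exp (δ * (k : ℝ) ^ 2 + -(c * (k : ℝ) ^ 2)) := by
        rw [exp_add]; ring
    _ ≤ (1 / δ) * exp (-(c / 2 * (k : ℝ) ^ 2)) := by
        apply mul_le_mul_of_nonneg_left _ (by positivity)
        rw [exp_le_exp]
        nlinarith [sq_nonneg (k : ℝ)]

theorem summable_id_gauss (c : ℝ) (hc : 0 < c) :
    Summable fun k : ℤ => (k : ℝ) * exp (-(c * (k : ℝ) ^ 2)) := by
  refine Summable.of_norm_bounded (summable_sq_gauss c hc) (fun k => ?_)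
  rw [norm_mul, Real.norm_eq_abs, Real.norm_eq_abs, abs_of_pos (exp_pos _)]
  apply mul_le_mul_of_nonneg_right _ (exp_pos _).le
  rcases eq_or_ne k 0 with hk | hk
  · simp [hk]
  · have h1 : (1 : ℝ) ≤ |(k : ℝ)| := by
      exact_mod_cast Int.one_le_abs hk
    rw [← sq_abs]
    nlinarith

theorem tsum_id_gauss (c : ℝ) : ∑' k : ℤ, (k : ℝ) * exp (-(c * (k : ℝ) ^ 2)) = 0 := by
  have h : ∑' k : ℤ, (k : ℝ) * exp (-(c * (k : ℝ) ^ 2)) =
      ∑' k : ℤ, (((-k : ℤ) : ℝ)) * exp (-(c * (((-k : ℤ) : ℝ)) ^ 2)) :=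
    ((Equiv.neg ℤ).tsum_eq (fun k : ℤ => (k : ℝ) * exp (-(c * (k : ℝ) ^ 2)))).symm
  have h2 : ∑' k : ℤ, (((-k : ℤ) : ℝ)) * exp (-(c * (((-k : ℤ) : ℝ)) ^ 2)) =
      -∑' k : ℤ, (k : ℝ) * exp (-(c * (k : ℝ) ^ 2)) := by
    rw [← tsum_neg]
    refine tsum_congr fun k => ?_
    push_cast
    rw [neg_sq]
    ring
  linarith

/-- the Gaussian weight on `ι → ℤ` is summable -/
theorem summable_pi_gauss {ι : Type*} [Fintype ι] (c : ℝ) (hc : 0 < c) :
    Summable fun n : ι → ℤ => exp (-(c * ∑ i, (n i : ℝ) ^ 2)) := by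
  classical
  have h := (fin_sums (fun k : ℤ => exp (-(c * (k : ℝ) ^ 2))) _ _ (summable_gauss c hc).hasSum
    ((tsum_id_gauss c) ▸ (summable_id_gauss c hc).hasSum) (summable_sq_gauss c hc).hasSum
    (Fintype.card ι)).1.summable
  let e : (ι → ℤ) ≃ (Fin (Fintype.card ι) → ℤ) := (Fintype.equivFin ι).arrowCongr (Equiv.refl ℤ)
  refine ((e.summable_iff).2 h).congr fun n => ?_
  simp only [Function.comp, ← exp_sum]
  congr 1
  rw [Finset.sum_neg_distrib, ← Finset.mul_sum]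
  congr 2
  refine (Fintype.sum_equiv (Fintype.equivFin ι) _ _ fun i => ?_).symm
  simp [e, Equiv.arrowCongr]

/-- second moment of the sum of the coordinates for a product Gaussian weight -/
theorem ratio_gauss (c : ℝ) (hc : 0 < c) (m : ℕ) :
    (∑' n : Fin m → ℤ, (∑ i, (n i : ℝ)) ^ 2 * exp (-(c * ∑ i, (n i : ℝ) ^ 2))) *
        (∑' k : ℤ, exp (-(c * (k : ℝ) ^ 2))) =
      m * (∑' k : ℤ, (k : ℝ) ^ 2 * exp (-(c * (k : ℝ) ^ 2))) *
        (∑' n : Fin m → ℤ, exp (-(c * ∑ i, (n i : ℝ) ^ 2))) := by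
  obtain ⟨a0, a1, a2⟩ := fin_sums (fun k : ℤ => exp (-(c * (k : ℝ) ^ 2))) _ _
    (summable_gauss c hc).hasSum
    ((tsum_id_gauss c) ▸ (summable_id_gauss c hc).hasSum) (summable_sq_gauss c hc).hasSum m
  have e1 : ∀ n : Fin m → ℤ, exp (-(c * ∑ i, (n i : ℝ) ^ 2)) = ∏ i, exp (-(c * (n i : ℝ) ^ 2)) := by
    intro n
    rw [← exp_sum, Finset.sum_neg_distrib, ← Finset.mul_sum]
  simp only [e1]
  rw [a0.tsum_eq, a2.tsum_eq]
  rcases m with _ | m
  · simp
  · simp only [Nat.add_sub_cancel]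
    ring

end Pool.Agent.U868.DG
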