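import Mathlib

/-!
# The long-range quadratic energy on `ℤ`
-/

set_option autoImplicit false

open Real

namespace Pool.Agent.U868.DG

/-- one term of the energy -/
noncomputable def term (α : ℝ) (f : ℤ → ℝ) (p : ℤ × ℤ) : ℝ :=
  if p.1 = p.2 then 0 else ((|p.1 - p.2| : ℤ) : ℝ) ^ (-α) * (f p.1 - f p.2) ^ 2

/-- the energy -/
noncomputable def En (α : ℝ) (f : ℤ → ℝ) : ℝ := ∑' p, term α f p

theorem term_nonneg (α : ℝ) (f : ℤ → ℝ) (p : ℤ × ℤ) : 0 ≤ term α f p := by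
  unfold term
  split_ifs
  · exact le_rfl
  · apply mul_nonneg _ (sq_nonneg _)
    apply Real.rpow_nonneg
    exact_mod_cast abs_nonneg _

theorem term_eq (α : ℝ) (f : ℤ → ℝ) (p : ℤ × ℤ) :
    term α f p = |((p.1 - p.2 : ℤ) : ℝ)| ^ (-α) * (f p.1 - f p.2) ^ 2 := by
  unfold term
  split_ifs with h
  · rw [h]; simp
  · rw [Int.cast_abs]

/-- `|k|^{-α}` against a finitely supported function -/
theorem summable_shear (α : ℝ) (hα : 1 < α) (g : ℤ → ℝ) (hg : Summable g) (hg0 : ∀ x, 0 ≤ g x) :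
    Summable fun p : ℤ × ℤ => |((p.1 - p.2 : ℤ) : ℝ)| ^ (-α) * g p.1 := by
  have h1 : Summable fun k : ℤ => |(k : ℝ)| ^ (-α) := Real.summable_abs_int_rpow hα
  have h2 : Summable fun q : ℤ × ℤ => |(q.1 : ℝ)| ^ (-α) * g q.2 :=
    h1.mul_of_nonneg hg (fun _ => Real.rpow_nonneg (abs_nonneg _) _) hg0
  have hinj : Function.Injective fun p : ℤ × ℤ => ((p.1 - p.2, p.1) : ℤ × ℤ) := by
    rintro ⟨a, b⟩ ⟨c, d⟩ h
    simp only [Prod.mk.injEq] at h ⊢
    omega
  refine (h2.comp_injective hinj).congr fun p => ?_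
  simp only [Function.comp]

theorem summable_term (α : ℝ) (hα : 1 < α) (f : ℤ → ℝ) (hf : Summable fun x => f x ^ 2) :
    Summable (term α f) := by
  have h1 := summable_shear α hα (fun x => f x ^ 2) hf (fun _ => sq_nonneg _)
  have h2 : Summable fun p : ℤ × ℤ => |((p.1 - p.2 : ℤ) : ℝ)| ^ (-α) * f p.2 ^ 2 := by
    refine (h1.comp_injective (Prod.swap_injective (α := ℤ) (β := ℤ))).congr fun p => ?_
    simp only [Function.comp, Prod.swap]
    congr 2
    rw [← abs_neg]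
    congr 1
    push_cast
    ring
  refine Summable.of_nonneg_of_le (term_nonneg α f) (fun p => ?_)
    ((h1.mul_left 2).add (h2.mul_left 2))
  rw [term_eq]
  have h3 : 0 ≤ |((p.1 - p.2 : ℤ) : ℝ)| ^ (-α) := Real.rpow_nonneg (abs_nonneg _) _
  have h4 : (f p.1 - f p.2) ^ 2 ≤ 2 * f p.1 ^ 2 + 2 * f p.2 ^ 2 := by
    nlinarith [sq_nonneg (f p.1 + f p.2)]
  calc |((p.1 - p.2 : ℤ) : ℝ)| ^ (-α) * (f p.1 - f p.2) ^ 2
      ≤ |((p.1 - p.2 : ℤ) : ℝ)| ^ (-α) * (2 * f p.1 ^ 2 + 2 * f p.2 ^ 2) :=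
        mul_le_mul_of_nonneg_left h4 h3
    _ = _ := by ring

/-- parallelogram law -/
theorem En_par (α : ℝ) (hα : 1 < α) (f g : ℤ → ℝ) (hf : Summable fun x => f x ^ 2)
    (hg : Summable fun x => g x ^ 2) :
    En α (f + g) + En α (f - g) = 2 * En α f + 2 * En α g := by
  have hfg : Summable fun x => (f + g) x ^ 2 := by
    refine Summable.of_nonneg_of_le (fun _ => sq_nonneg _) (fun x => ?_)
      ((hf.mul_left 2).add (hg.mul_left 2))
    simp only [Pi.add_apply]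
    nlinarith [sq_nonneg (f x - g x)]
  have hfg' : Summable fun x => (f - g) x ^ 2 := by
    refine Summable.of_nonneg_of_le (fun _ => sq_nonneg _) (fun x => ?_)
      ((hf.mul_left 2).add (hg.mul_left 2))
    simp only [Pi.sub_apply]
    nlinarith [sq_nonneg (f x + g x)]
  unfold En
  rw [← (summable_term α hα _ hfg).tsum_add (summable_term α hα _ hfg'), ← tsum_mul_left,
    ← tsum_mul_left, ← ((summable_term α hα _ hf).mul_left 2).tsum_add
      ((summable_term α hα _ hg).mul_left 2)]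
  refine tsum_congr fun p => ?_
  simp only [term_eq, Pi.add_apply, Pi.sub_apply]
  ring

/-- lower bound for functions supported in `[-N, N]` -/
theorem En_lower (α : ℝ) (hα : 1 < α) (N : ℕ) (f : ℤ → ℝ) (hf : ∀ x : ℤ, (N : ℤ) < |x| → f x = 0) :
    (2 * (N : ℝ) + 1) ^ (-α) * ∑ x ∈ Finset.Icc (-(N : ℤ)) N, f x ^ 2 ≤ En α f := by
  have hs : Summable fun x => f x ^ 2 := by
    apply summable_of_ne_finset_zero (s := Finset.Icc (-(N : ℤ)) N)
    intro x hx
    rw [hf x, zero_pow two_ne_zero]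
    by_contra hcon
    apply hx
    rw [Finset.mem_Icc]
    exact abs_le.1 (not_lt.1 hcon)
  have hinj : Function.Injective fun x : ℤ => (x, (N : ℤ) + 1) := fun a b h => by
    simpa using congrArg Prod.fst h
  have h1 : ∑ x ∈ Finset.Icc (-(N : ℤ)) N, term α f (x, (N : ℤ) + 1) ≤ En α f := by
    have := (summable_term α hα f hs).sum_le_tsum
      ((Finset.Icc (-(N : ℤ)) N).image fun x : ℤ => (x, (N : ℤ) + 1))
      (fun p _ => term_nonneg α f p)
    rw [Finset.sum_image (fun a _ b _ h => hinj h)] at this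
    exact this
  refine le_trans ?_ h1
  rw [Finset.mul_sum]
  refine Finset.sum_le_sum fun x hx => ?_
  rw [Finset.mem_Icc] at hx
  rw [term_eq]
  have h2 : f ((N : ℤ) + 1) = 0 := by
    apply hf
    rw [abs_of_pos (by positivity)]
    omega
  simp only
  rw [h2, sub_zero]
  apply mul_le_mul_of_nonneg_right _ (sq_nonneg _)
  have h3 : |((x - ((N : ℤ) + 1) : ℤ) : ℝ)| = (N : ℝ) + 1 - x := by
    rw [abs_of_nonpos]
    · push_cast; ring
    · have : x - ((N : ℤ) + 1) ≤ 0 := by omega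
      exact_mod_cast this
  rw [h3]
  have h4 : (x : ℝ) ≤ N := by exact_mod_cast hx.2
  have h5 : (-(N : ℝ)) ≤ x := by exact_mod_cast hx.1
  apply Real.rpow_le_rpow_of_nonpos
  · linarith
  · linarith
  · linarith

/-- the indicator of `[-A, A]` -/
noncomputable def chi (A : ℕ) (x : ℤ) : ℤ := if |x| ≤ (A : ℤ) then 1 else 0

theorem chi_diff_sum (A : ℕ) (k : ℤ) :
    Summable (fun x : ℤ => (((chi A x : ℤ) : ℝ) - ((chi A (x - k) : ℤ) : ℝ)) ^ 2) ∧
    ∑' x : ℤ, (((chi A x : ℤ) : ℝ) - ((chi A (x - k) : ℤ) : ℝ)) ^ 2 ≤ 2 * |(k : ℝ)| := by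
  set S : Finset ℤ := Finset.Ico (min (-(A : ℤ)) (-(A : ℤ) + k)) (max (-(A : ℤ)) (-(A : ℤ) + k)) ∪
    Finset.Ioc (min (A : ℤ) (A + k)) (max (A : ℤ) (A + k)) with hS
  have hz : ∀ x ∉ S, (((chi A x : ℤ) : ℝ) - ((chi A (x - k) : ℤ) : ℝ)) ^ 2 = 0 := by
    intro x hx
    have : chi A x = chi A (x - k) := by
      rw [hS, Finset.mem_union, Finset.mem_Ico, Finset.mem_Ioc] at hx
      unfold chi
      simp only [abs_le]
      split_ifs <;> first | rfl | omega
    rw [this]; simp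
  have hle : ∀ x, (((chi A x : ℤ) : ℝ) - ((chi A (x - k) : ℤ) : ℝ)) ^ 2 ≤ 1 := by
    intro x
    unfold chi
    split_ifs <;> norm_num
  refine ⟨summable_of_ne_finset_zero (s := S) hz, ?_⟩
  rw [tsum_eq_sum (s := S) hz]
  have hc : (S.card : ℤ) ≤ 2 * |k| := by
    have h1 := Finset.card_union_le
      (Finset.Ico (min (-(A : ℤ)) (-(A : ℤ) + k)) (max (-(A : ℤ)) (-(A : ℤ) + k)))
      (Finset.Ioc (min (A : ℤ) (A + k)) (max (A : ℤ) (A + k)))
    rw [Int.card_Ico, Int.card_Ioc] at h1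
    rw [← hS] at h1
    rcases abs_cases k with h | h <;> omega
  calc ∑ x ∈ S, (((chi A x : ℤ) : ℝ) - ((chi A (x - k) : ℤ) : ℝ)) ^ 2
      ≤ ∑ _x ∈ S, (1 : ℝ) := Finset.sum_le_sum fun x _ => hle x
    _ = (S.card : ℝ) := by simp
    _ ≤ 2 * |(k : ℝ)| := by
        have : ((S.card : ℤ) : ℝ) ≤ ((2 * |k| : ℤ) : ℝ) := by exact_mod_cast hc
        push_cast at this
        exact this

theorem chi_sq_summable (A : ℕ) : Summable fun x : ℤ => ((chi A x : ℤ) : ℝ) ^ 2 := by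
  apply summable_of_ne_finset_zero (s := Finset.Icc (-(A : ℤ)) A)
  intro x hx
  rw [Finset.mem_Icc, ← abs_le] at hx
  unfold chi
  rw [if_neg hx]
  simp

/-- the energy of the indicator of an interval is bounded uniformly in the interval -/
theorem En_chi (α : ℝ) (hα : 2 < α) (A : ℕ) :
    En α (fun x => ((chi A x : ℤ) : ℝ)) ≤ ∑' k : ℤ, 2 * |(k : ℝ)| ^ (-(α - 1)) := by
  have hs := summable_term α (by linarith) _ (chi_sq_summable A)
  let e : (ℤ × ℤ) ≃ (ℤ × ℤ) :=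
    { toFun := fun q => (q.2, q.2 - q.1)
      invFun := fun p => (p.1 - p.2, p.1)
      left_inv := fun q => by simp
      right_inv := fun p => by simp }
  unfold En
  have hs' := (e.summable_iff).2 hs
  rw [← e.tsum_eq]
  have hs'' : Summable fun q : ℤ × ℤ => term α (fun x => ((chi A x : ℤ) : ℝ)) (e q) := hs'
  rw [hs''.tsum_prod]
  have hg : Summable fun k : ℤ => 2 * |(k : ℝ)| ^ (-(α - 1)) :=
    (Real.summable_abs_int_rpow (by linarith)).mul_left 2
  refine hs''.prod.tsum_le_tsum (fun k => ?_) hg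
  have h1 : ∀ x : ℤ, term α (fun x => ((chi A x : ℤ) : ℝ)) (e (k, x)) =
      |(k : ℝ)| ^ (-α) * (((chi A x : ℤ) : ℝ) - ((chi A (x - k) : ℤ) : ℝ)) ^ 2 := by
    intro x
    rw [term_eq]
    have : (e (k, x)) = (x, x - k) := rfl
    rw [this]
    simp only [sub_sub_cancel]
  simp only [h1]
  rw [tsum_mul_left]
  obtain ⟨_, h2⟩ := chi_diff_sum A k
  rcases eq_or_ne k 0 with hk | hk
  · subst hk
    simp only [Int.cast_zero, abs_zero]
    rw [Real.zero_rpow (by linarith), zero_mul, Real.zero_rpow (by linarith), mul_zero]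
  · have hk' : 0 < |(k : ℝ)| := abs_pos.2 (by exact_mod_cast hk)
    calc |(k : ℝ)| ^ (-α) * ∑' x : ℤ, (((chi A x : ℤ) : ℝ) - ((chi A (x - k) : ℤ) : ℝ)) ^ 2
        ≤ |(k : ℝ)| ^ (-α) * (2 * |(k : ℝ)|) :=
          mul_le_mul_of_nonneg_left h2 (Real.rpow_nonneg hk'.le _)
      _ = 2 * (|(k : ℝ)| ^ (-α) * |(k : ℝ)| ^ (1 : ℝ)) := by rw [Real.rpow_one]; ring
      _ = 2 * |(k : ℝ)| ^ (-(α - 1)) := by
          rw [← Real.rpow_add hk']
          congr 2
          ring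

end Pool.Agent.U868.DG
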