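import Pool.Agent.U868.DG.Main

/-!
# The comparison for an arbitrary family of block spins
-/

set_option autoImplicit false

open Real

namespace Pool.Agent.U868.DG

/-- **The comparison for a general additive family of superpositions.** -/
theorem key_gen (α β C C' : ℝ) (hα1 : 1 < α) (hβ : 0 < β) (hC0 : 0 ≤ C) (m N : ℕ)
    (Φ : (Fin m → ℤ) →+ Om N) (hΦ0 : ∀ n, (Φ n).1 0 = ∑ j, n j)
    (hΦE : ∀ n, En α (toR (Φ n).1) ≤ C * ∑ j, (n j : ℝ) ^ 2)
    (hC : C' = β * C + 1) :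
    (m : ℝ) * (∑' k : ℤ, (k : ℝ) ^ 2 * exp (-(C' * (k : ℝ) ^ 2))) *
        (∑' φ : Om N, exp (-(β * En α (toR φ.1)))) ≤
      (∑' φ : Om N, (φ.1 0 : ℝ) ^ 2 * exp (-(β * En α (toR φ.1)))) *
        (∑' k : ℤ, exp (-(C' * (k : ℝ) ^ 2))) := by
  have hC'pos : 0 < C' := by rw [hC]; positivity
  set R : (Fin m → ℤ) → ℝ := fun n => C' * ∑ j, (n j : ℝ) ^ 2 - β * En α (toR (Φ n).1) with hR
  have hRlow : ∀ n, ∑ j, (n j : ℝ) ^ 2 ≤ R n := by
    intro n
    have h1 := hΦE n
    have h2 : β * En α (toR (Φ n).1) ≤ β * (C * ∑ j, (n j : ℝ) ^ 2) :=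
      mul_le_mul_of_nonneg_left h1 hβ.le
    simp only [hR]
    rw [hC]
    linarith
  set Q : (Om N × (Fin m → ℤ)) → ℝ := fun v => β * En α (toR v.1.1) + R v.2 with hQd
  set c0 : ℝ := β * (2 * (N : ℝ) + 1) ^ (-α) with hc0d
  have hc0 : 0 < c0 := by positivity
  have hElow : ∀ φ : Om N, c0 * nrm N φ.1 ≤ β * En α (toR φ.1) := by
    intro φ
    have h1 := En_lower α hα1 N (toR φ.1) (fun x hx => by
      simp only [toR]; rw [mem_Om.1 φ.2 x hx, Int.cast_zero])
    have h2 := mul_le_mul_of_nonneg_left h1 hβ.le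
    rw [hc0d, mul_assoc]
    exact h2
  have hpar : ∀ a b, Q (a + b) + Q (a - b) = 2 * Q a + 2 * Q b := by
    rintro ⟨φ, n⟩ ⟨ψ, k⟩
    simp only [hQd, hR]
    have e1 : ((φ, n) + (ψ, k) : Om N × (Fin m → ℤ)) = (φ + ψ, n + k) := rfl
    have e2 : ((φ, n) - (ψ, k) : Om N × (Fin m → ℤ)) = (φ - ψ, n - k) := rfl
    rw [e1, e2]
    simp only [map_add, map_sub, AddSubgroup.coe_add, AddSubgroup.coe_sub, toR_add, toR_sub]
    have p1 := En_par α hα1 (toR φ.1) (toR ψ.1) (Om_sq_summable φ.2) (Om_sq_summable ψ.2)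
    have p2 := En_par α hα1 (toR (Φ n).1) (toR (Φ k).1) (Om_sq_summable (Φ n).2)
      (Om_sq_summable (Φ k).2)
    have p3 : ∑ j, (((n + k) j : ℤ) : ℝ) ^ 2 + ∑ j, (((n - k) j : ℤ) : ℝ) ^ 2 =
        2 * ∑ j, (n j : ℝ) ^ 2 + 2 * ∑ j, (k j : ℝ) ^ 2 := by
      rw [← Finset.sum_add_distrib, Finset.mul_sum, Finset.mul_sum, ← Finset.sum_add_distrib]
      refine Finset.sum_congr rfl fun j _ => ?_
      simp only [Pi.add_apply, Pi.sub_apply]
      push_cast
      ring
    linear_combination β * p1 - β * p2 + C' * p3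
  have hLval : ∀ v, obs m N v = (v.1.1 0 : ℝ) := fun _ => rfl
  -- summability
  have hsum : ∀ a : ℝ, 0 < a → Summable fun v : Om N × (Fin m → ℤ) =>
      (1 + (obs m N v) ^ 2) * exp (-(a * Q v)) := by
    intro a ha
    set δ : ℝ := min 1 (a * c0 / 2) with hδd
    have hac : 0 < a * c0 := mul_pos ha hc0
    have hδ : 0 < δ := lt_min one_pos (by linarith)
    have hδ1 : δ ≤ 1 := min_le_left _ _
    have hδc : δ ≤ a * c0 / 2 := min_le_right _ _
    have h1 := (summable_nrm N (a * c0 / 2) (by linarith)).mul_left (1 / δ)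
    have h2 := summable_pi_gauss (ι := Fin m) a ha
    have h3 : Summable fun v : Om N × (Fin m → ℤ) =>
        ((1 / δ) * exp (-(a * c0 / 2 * nrm N v.1.1))) * exp (-(a * ∑ j, (v.2 j : ℝ) ^ 2)) :=
      (hasSum_mul_prod h1.hasSum h2.hasSum).summable
    refine Summable.of_nonneg_of_le (fun v => by positivity) (fun v => ?_) h3
    have hn0 : 0 ≤ nrm N v.1.1 := Finset.sum_nonneg fun _ _ => sq_nonneg _
    have h4 : (1 + (obs m N v) ^ 2) ≤ (1 / δ) * exp (δ * nrm N v.1.1) := by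
      refine le_trans ?_ (one_add_le_exp δ (nrm N v.1.1) hδ hδ1)
      have := sq_zero_le_nrm N v.1.1
      rw [hLval]
      linarith
    calc (1 + (obs m N v) ^ 2) * exp (-(a * Q v))
        ≤ ((1 / δ) * exp (δ * nrm N v.1.1)) * exp (-(a * Q v)) :=
          mul_le_mul_of_nonneg_right h4 (exp_pos _).le
      _ = (1 / δ) * exp (δ * nrm N v.1.1 + -(a * Q v)) := by rw [exp_add]; ring
      _ ≤ (1 / δ) * exp (-(a * c0 / 2 * nrm N v.1.1) + -(a * ∑ j, (v.2 j : ℝ) ^ 2)) := by
          apply mul_le_mul_of_nonneg_left _ (by positivity)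
          rw [exp_le_exp]
          have q1 : a * (c0 * nrm N v.1.1 + ∑ j, (v.2 j : ℝ) ^ 2) ≤ a * Q v := by
            apply mul_le_mul_of_nonneg_left _ ha.le
            simp only [hQd]
            exact add_le_add (hElow v.1) (hRlow v.2)
          have q2 : δ * nrm N v.1.1 ≤ a * c0 / 2 * nrm N v.1.1 :=
            mul_le_mul_of_nonneg_right hδc hn0
          linarith
      _ = _ := by rw [exp_add]; ring
  have he : Summable fun v => exp (-Q v) := by
    refine Summable.of_nonneg_of_le (fun _ => (exp_pos _).le) (fun v => ?_) (hsum 1 one_pos)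
    rw [one_mul]
    nlinarith [sq_nonneg (obs m N v), exp_pos (-Q v), mul_nonneg (sq_nonneg (obs m N v)) (exp_pos (-Q v)).le]
  have hL : Summable fun v => (obs m N v) ^ 2 * exp (-Q v) := by
    refine Summable.of_nonneg_of_le (fun _ => by positivity) (fun v => ?_) (hsum 1 one_pos)
    rw [one_mul]
    apply mul_le_mul_of_nonneg_right _ (exp_pos _).le
    linarith
  have hF : Summable fun v => obs m N v * exp (-Q v / 2) := by
    refine Summable.of_norm_bounded (hsum (1 / 2) (by norm_num)) (fun v => ?_)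
    rw [norm_mul, Real.norm_eq_abs, Real.norm_eq_abs, abs_of_pos (exp_pos _)]
    have e1 : -Q v / 2 = -(1 / 2 * Q v) := by ring
    rw [e1]
    apply mul_le_mul_of_nonneg_right _ (exp_pos _).le
    nlinarith [sq_abs (obs m N v), sq_nonneg (|obs m N v| - 1), abs_nonneg (obs m N v)]
  let iot : (Fin m → ℤ) →+ (Om N × (Fin m → ℤ)) := Φ.prod (AddMonoidHom.id _)
  have hiot : ∀ n, iot n = (Φ n, n) := fun _ => rfl
  have hι : Function.Injective iot := by
    intro a b hab
    exact congrArg Prod.snd hab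
  have h2t : ∀ w : Fin m → ℤ, w + w = 0 → w = 0 := by
    intro w hw
    funext j
    have := congrFun hw j
    simp only [Pi.add_apply, Pi.zero_apply] at this
    simp only [Pi.zero_apply]
    omega
  have main := sub_mono iot hι h2t Q hpar (obs m N) hF he hL
  have hQι : ∀ n, Q (iot n) = C' * ∑ j, (n j : ℝ) ^ 2 := by
    intro n
    rw [hiot]
    simp only [hQd, hR]
    ring
  have hLι : ∀ n, obs m N (iot n) = ∑ j, (n j : ℝ) := by
    intro n
    rw [hiot, hLval]
    simp only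
    rw [hΦ0]
    push_cast
    rfl
  simp only [hQι, hLι] at main
  -- product structure
  have hsE : Summable fun φ : Om N => exp (-(β * En α (toR φ.1))) := by
    refine Summable.of_nonneg_of_le (fun _ => (exp_pos _).le) (fun φ => ?_) (summable_nrm N c0 hc0)
    rw [exp_le_exp, neg_le_neg_iff]
    exact hElow φ
  have hsE2 : Summable fun φ : Om N => (φ.1 0 : ℝ) ^ 2 * exp (-(β * En α (toR φ.1))) := by
    have := hL.comp_injective (i := fun φ : Om N => ((φ, 0) : Om N × (Fin m → ℤ)))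
      (fun a b hab => congrArg Prod.fst hab)
    refine this.congr fun φ => ?_
    simp only [Function.comp, hLval, hQd, hR, map_zero]
    have : toR ((0 : Om N) : ℤ → ℤ) = 0 := by funext x; simp [toR]
    rw [this]
    have e0 : En α (0 : ℤ → ℝ) = 0 := by
      unfold En
      have : ∀ p, term α (0 : ℤ → ℝ) p = 0 := by
        intro p; rw [term_eq]; simp
      simp only [this, tsum_zero]
    rw [e0]
    simp
  have hsR : Summable fun n : Fin m → ℤ => exp (-R n) := by
    refine Summable.of_nonneg_of_le (fun _ => (exp_pos _).le) (fun n => ?_)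
      (summable_pi_gauss (ι := Fin m) 1 one_pos)
    rw [exp_le_exp, neg_le_neg_iff, one_mul]
    exact hRlow n
  have f1 : ∑' v, exp (-Q v) =
      (∑' φ : Om N, exp (-(β * En α (toR φ.1)))) * ∑' n, exp (-R n) := by
    rw [← (hasSum_mul_prod hsE.hasSum hsR.hasSum).tsum_eq]
    refine tsum_congr fun v => ?_
    simp only [hQd]
    rw [← exp_add]
    congr 1
    ring
  have f2 : ∑' v, (obs m N v) ^ 2 * exp (-Q v) =
      (∑' φ : Om N, (φ.1 0 : ℝ) ^ 2 * exp (-(β * En α (toR φ.1)))) * ∑' n, exp (-R n) := by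
    rw [← (hasSum_mul_prod hsE2.hasSum hsR.hasSum).tsum_eq]
    refine tsum_congr fun v => ?_
    simp only [hQd, hLval]
    rw [mul_assoc, ← exp_add]
    congr 2
    ring
  rw [f1, f2] at main
  have hζ : 0 < ∑' n, exp (-R n) := hsR.tsum_pos (fun _ => (exp_pos _).le) 0 (exp_pos _)
  have hZm : 0 < ∑' n : Fin m → ℤ, exp (-(C' * ∑ j, (n j : ℝ) ^ 2)) :=
    (summable_pi_gauss (ι := Fin m) C' hC'pos).tsum_pos (fun _ => (exp_pos _).le) 0 (exp_pos _)
  have hrat := ratio_gauss C' hC'pos m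
  set Z := ∑' φ : Om N, exp (-(β * En α (toR φ.1))) with hZ
  set A := ∑' φ : Om N, (φ.1 0 : ℝ) ^ 2 * exp (-(β * En α (toR φ.1))) with hA
  set ζ := ∑' n, exp (-R n) with hζd
  set Zm := ∑' n : Fin m → ℤ, exp (-(C' * ∑ j, (n j : ℝ) ^ 2)) with hZmd
  set Mm := ∑' n : Fin m → ℤ, (∑ j, (n j : ℝ)) ^ 2 * exp (-(C' * ∑ j, (n j : ℝ) ^ 2)) with hMmd
  set z := ∑' k : ℤ, exp (-(C' * (k : ℝ) ^ 2)) with hz
  set y := ∑' k : ℤ, (k : ℝ) ^ 2 * exp (-(C' * (k : ℝ) ^ 2)) with hy
  have hz0 : 0 < z := (summable_gauss C' hC'pos).tsum_pos (fun _ => (exp_pos _).le) 0 (exp_pos _)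
  have m1 : Mm * Z ≤ A * Zm := by
    have : (Mm * Z) * ζ ≤ (A * Zm) * ζ := by nlinarith [main]
    exact le_of_mul_le_mul_right this hζ
  have m2 : (m * y * Z) * Zm ≤ (A * z) * Zm := by
    calc (m * y * Z) * Zm = (m * y * Zm) * Z := by ring
      _ = (Mm * z) * Z := by rw [hrat]
      _ = (Mm * Z) * z := by ring
      _ ≤ (A * Zm) * z := mul_le_mul_of_nonneg_right m1 hz0.le
      _ = _ := by ring
  exact le_of_mul_le_mul_right m2 hZm

end Pool.Agent.U868.DG
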