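import Mathlib

/-!
# Monotonicity of the variance of a discrete Gaussian under restriction to a subgroup

If `Q` satisfies the parallelogram law on an abelian group `V` and `L` is additive, then the second
moment of `L` with the weight `exp (-Q)` on `V` is at least the one on a subgroup.
-/

set_option autoImplicit false

open Real

namespace Pool.Agent.U868.DG

section

variable {V W : Type*} [AddCommGroup V] [AddCommGroup W]

/-- summing over the cosets of the image of `κ` -/
theorem coset_sum_nonneg (κ : W →+ V) (hκ : Function.Injective κ) (F : V → ℝ) (hF : Summable F) :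
    0 ≤ ∑' p : V × W, F p.1 * F (p.1 + κ p.2) := by
  classical
  have hFa : Summable fun v => ‖F v‖ := hF.norm
  -- the product over all pairs is summable
  have hprod : Summable fun q : V × V => F q.1 * F q.2 := summable_mul_of_summable_norm hFa hFa
  have hinj : Function.Injective fun p : V × W => (p.1, p.1 + κ p.2) := by
    rintro ⟨a, w⟩ ⟨b, w'⟩ h
    simp only [Prod.mk.injEq] at h
    obtain ⟨h1, h2⟩ := h
    subst h1
    simp only [Prod.mk.injEq, true_and]
    exact hκ (add_left_cancel h2)
  have hs : Summable fun p : V × W => F p.1 * F (p.1 + κ p.2) := hprod.comp_injective hinj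
  set T : AddSubgroup V := κ.range with hT
  -- V is in bijection with quotient times W
  have hbij : Function.Bijective fun p : (V ⧸ T) × W => (Quotient.out p.1 : V) + κ p.2 := by
    constructor
    · rintro ⟨c, w⟩ ⟨c', w'⟩ h
      simp only at h
      have hc : c = c' := by
        have h1 : ((Quotient.out c + κ w : V) : V ⧸ T) = c := by
          rw [QuotientAddGroup.mk_add, (QuotientAddGroup.eq_zero_iff (κ w)).2 (show κ w ∈ T from ⟨w, rfl⟩), add_zero]
          exact QuotientAddGroup.out_eq' c
        have h2 : ((Quotient.out c' + κ w' : V) : V ⧸ T) = c' := by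
          rw [QuotientAddGroup.mk_add, (QuotientAddGroup.eq_zero_iff (κ w')).2 (show κ w' ∈ T from ⟨w', rfl⟩), add_zero]
          exact QuotientAddGroup.out_eq' c'
        rw [← h1, ← h2, h]
      subst hc
      simp only [Prod.mk.injEq, true_and]
      exact hκ (add_left_cancel h)
    · intro v
      have h1 : (-(Quotient.out (v : V ⧸ T)) + v : V) ∈ T := by
        rw [← QuotientAddGroup.eq]
        exact QuotientAddGroup.out_eq' _
      obtain ⟨w, hw⟩ := h1
      refine ⟨((v : V ⧸ T), w), ?_⟩
      simp only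
      rw [hw]
      abel
  set e : ((V ⧸ T) × W) ≃ V := Equiv.ofBijective _ hbij with he
  set G : V → ℝ := fun b => ∑' w, F (b + κ w) with hG
  have hGper : ∀ b w, G (b + κ w) = G b := by
    intro b w
    simp only [hG]
    rw [← (Equiv.addLeft w).tsum_eq (fun w' => F (b + κ w'))]
    refine tsum_congr fun w' => ?_
    simp only [Equiv.coe_addLeft, map_add]
    rw [add_assoc]
  have h1 : ∑' p : V × W, F p.1 * F (p.1 + κ p.2) = ∑' b : V, F b * G b := by
    rw [hs.tsum_prod]
    refine tsum_congr fun b => ?_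
    simp only [hG]
    rw [tsum_mul_left]
  have hs1 : Summable fun b : V => F b * G b := by
    have := hs.prod
    refine this.congr fun b => ?_
    simp only [hG]
    rw [tsum_mul_left]
  rw [h1, ← e.tsum_eq]
  have hs2 : Summable fun p : (V ⧸ T) × W => F (e p) * G (e p) := (e.summable_iff (f := fun b => F b * G b)).2 hs1
  rw [hs2.tsum_prod]
  refine tsum_nonneg fun c => ?_
  have h2 : ∀ w : W, F (e (c, w)) * G (e (c, w)) = F (Quotient.out c + κ w) * G (Quotient.out c) := by
    intro w
    have : e (c, w) = Quotient.out c + κ w := rfl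
    rw [this, hGper]
  simp only [h2]
  rw [tsum_mul_right]
  exact mul_self_nonneg _

/-- **Monotonicity under restriction to a subgroup.** -/
theorem sub_mono (ι : W →+ V) (hι : Function.Injective ι) (h2 : ∀ w : W, w + w = 0 → w = 0)
    (Q : V → ℝ) (hQ : ∀ a b, Q (a + b) + Q (a - b) = 2 * Q a + 2 * Q b) (L : V →+ ℝ)
    (hF : Summable fun v => L v * exp (-Q v / 2)) (he : Summable fun v => exp (-Q v))
    (hL : Summable fun v => (L v) ^ 2 * exp (-Q v)) :
    (∑' w, (L (ι w)) ^ 2 * exp (-Q (ι w))) * (∑' v, exp (-Q v)) ≤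
      (∑' v, (L v) ^ 2 * exp (-Q v)) * (∑' w, exp (-Q (ι w))) := by
  set F : V → ℝ := fun v => L v * exp (-Q v / 2) with hFd
  have hew : Summable fun w => exp (-Q (ι w)) := he.comp_injective hι
  have hLw : Summable fun w => (L (ι w)) ^ 2 * exp (-Q (ι w)) := hL.comp_injective hι
  set κ : W →+ V := ι + ι with hκd
  have hκ : Function.Injective κ := by
    rw [injective_iff_map_eq_zero]
    intro w hw
    apply h2
    apply hι
    rw [map_add, map_zero]
    exact hw
  have key := coset_sum_nonneg κ hκ F hF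
  -- change of variables
  let s : (V × W) ≃ (V × W) :=
    { toFun := fun p => (p.1 - ι p.2, p.2)
      invFun := fun p => (p.1 + ι p.2, p.2)
      left_inv := fun p => by simp
      right_inv := fun p => by simp }
  rw [← s.tsum_eq] at key
  have h3 : ∀ p : V × W, F (s p).1 * F ((s p).1 + κ (s p).2) =
      (L p.1) ^ 2 * exp (-Q p.1) * exp (-Q (ι p.2)) -
        exp (-Q p.1) * ((L (ι p.2)) ^ 2 * exp (-Q (ι p.2))) := by
    rintro ⟨v, w⟩
    have e1 : (s (v, w)).1 = v - ι w := rfl
    have e2 : (s (v, w)).1 + κ (s (v, w)).2 = v + ι w := by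
      show v - ι w + (ι w + ι w) = v + ι w
      abel
    rw [e2, e1]
    simp only [hFd]
    have hq := hQ v (ι w)
    have e3 : exp (-Q (v - ι w) / 2) * exp (-Q (v + ι w) / 2) = exp (-Q v) * exp (-Q (ι w)) := by
      rw [← exp_add, ← exp_add]
      congr 1
      linarith
    rw [map_add, map_sub]
    calc (L v - L (ι w)) * exp (-Q (v - ι w) / 2) * ((L v + L (ι w)) * exp (-Q (v + ι w) / 2))
        = (L v ^ 2 - L (ι w) ^ 2) * (exp (-Q (v - ι w) / 2) * exp (-Q (v + ι w) / 2)) := by ring
      _ = _ := by rw [e3]; ring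
  simp only [h3] at key
  have hp1 : Summable fun p : V × W => (L p.1) ^ 2 * exp (-Q p.1) * exp (-Q (ι p.2)) :=
    summable_mul_of_summable_norm (f := fun v => (L v) ^ 2 * exp (-Q v)) (g := fun w => exp (-Q (ι w))) hL.norm hew.norm
  have hp2 : Summable fun p : V × W => exp (-Q p.1) * ((L (ι p.2)) ^ 2 * exp (-Q (ι p.2))) :=
    summable_mul_of_summable_norm (f := fun v => exp (-Q v)) (g := fun w => (L (ι w)) ^ 2 * exp (-Q (ι w))) he.norm hLw.norm
  rw [hp1.tsum_sub hp2] at key
  have e1 : (∑' v, (L v) ^ 2 * exp (-Q v)) * (∑' w, exp (-Q (ι w))) =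
      ∑' p : V × W, (L p.1) ^ 2 * exp (-Q p.1) * exp (-Q (ι p.2)) :=
    tsum_mul_tsum_of_summable_norm (f := fun v => (L v) ^ 2 * exp (-Q v)) (g := fun w => exp (-Q (ι w))) hL.norm hew.norm
  have e2 : (∑' v, exp (-Q v)) * (∑' w, (L (ι w)) ^ 2 * exp (-Q (ι w))) =
      ∑' p : V × W, exp (-Q p.1) * ((L (ι p.2)) ^ 2 * exp (-Q (ι p.2))) :=
    tsum_mul_tsum_of_summable_norm (f := fun v => exp (-Q v)) (g := fun w => (L (ι w)) ^ 2 * exp (-Q (ι w))) he.norm hLw.norm
  rw [e1, mul_comm (∑' w, (L (ι w)) ^ 2 * exp (-Q (ι w))), e2]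
  linarith

end

end Pool.Agent.U868.DG
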