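import Pool.Agent.U868.DG.Unif

/-!
# Polynomial growth of the variance
-/

set_option autoImplicit false

open Real

namespace Pool.Agent.U868.DG

theorem dd_eq (ℓ j : ℕ) (x y : ℤ) :
    dd ℓ j x y = ((chi (rad ℓ j) x : ℤ) : ℝ) - ((chi (rad ℓ j) y : ℤ) : ℝ) := rfl

/-- the second bound for the number of separated pairs -/
theorem chi_diff_sum' (A : ℕ) (k : ℤ) :
    ∑' x : ℤ, (((chi A x : ℤ) : ℝ) - ((chi A (x - k) : ℤ) : ℝ)) ^ 2 ≤ 2 * (2 * (A : ℝ) + 1) := by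
  have hs1 := chi_sq_summable A
  have hs2 : Summable fun x : ℤ => ((chi A (x - k) : ℤ) : ℝ) ^ 2 :=
    hs1.comp_injective (i := fun x : ℤ => x - k) (fun a b h => by simpa using h)
  have hval : ∑' x : ℤ, ((chi A x : ℤ) : ℝ) ^ 2 = 2 * (A : ℝ) + 1 := by
    rw [tsum_eq_sum (s := Finset.Icc (-(A : ℤ)) A)]
    · have : ∀ x ∈ Finset.Icc (-(A : ℤ)) A, ((chi A x : ℤ) : ℝ) ^ 2 = 1 := by
        intro x hx
        rw [Finset.mem_Icc, ← abs_le] at hx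
        unfold chi
        rw [if_pos hx]
        simp
      rw [Finset.sum_congr rfl this, Finset.sum_const, Int.card_Icc]
      have e : ((A : ℤ) + 1 - -(A : ℤ)).toNat = 2 * A + 1 := by omega
      rw [e]
      simp
    · intro x hx
      rw [Finset.mem_Icc, ← abs_le] at hx
      unfold chi
      rw [if_neg hx]
      simp
  have hval2 : ∑' x : ℤ, ((chi A (x - k) : ℤ) : ℝ) ^ 2 = 2 * (A : ℝ) + 1 := by
    rw [← hval]
    exact (Equiv.subRight k).tsum_eq (fun x : ℤ => ((chi A x : ℤ) : ℝ) ^ 2)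
  have hle : ∀ x : ℤ, (((chi A x : ℤ) : ℝ) - ((chi A (x - k) : ℤ) : ℝ)) ^ 2 ≤
      ((chi A x : ℤ) : ℝ) ^ 2 + ((chi A (x - k) : ℤ) : ℝ) ^ 2 := by
    intro x
    unfold chi
    split_ifs <;> norm_num
  calc ∑' x : ℤ, (((chi A x : ℤ) : ℝ) - ((chi A (x - k) : ℤ) : ℝ)) ^ 2
      ≤ ∑' x : ℤ, (((chi A x : ℤ) : ℝ) ^ 2 + ((chi A (x - k) : ℤ) : ℝ) ^ 2) :=
        (chi_diff_sum A k).1.tsum_le_tsum hle (hs1.add hs2)
    _ = _ := by rw [hs1.tsum_add hs2, hval, hval2]; ring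

/-- the number of separating blocks as a function of the distance -/
noncomputable def ww (ℓ m : ℕ) (k : ℤ) : ℝ := min (m : ℝ) (1 + |(k : ℝ)| / ℓ)

theorem ww_nonneg (ℓ m : ℕ) (k : ℤ) : 0 ≤ ww ℓ m k := by
  unfold ww
  apply le_min (Nat.cast_nonneg _)
  positivity

theorem nsep_ww (ℓ m : ℕ) (hℓ : 1 ≤ ℓ) (x y : ℤ) : (nsep ℓ m x y : ℝ) ≤ ww ℓ m (x - y) := by
  have hl0 : (0 : ℝ) < ℓ := by exact_mod_cast hℓ
  unfold ww
  apply le_min
  · exact_mod_cast nsep_le_m ℓ m x y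
  · have h1 : ((ℓ * nsep ℓ m x y : ℕ) : ℝ) ≤ ((ℓ + (x - y).natAbs : ℕ) : ℝ) := by
      exact_mod_cast nsep_le ℓ m x y
    push_cast at h1
    have h3 : (((x - y).natAbs : ℕ) : ℝ) = |((x - y : ℤ) : ℝ)| := by
      rw [Nat.cast_natAbs, Int.cast_abs]
    rw [h3] at h1
    have h4 : (1 + |((x - y : ℤ) : ℝ)| / (ℓ : ℝ)) = ((ℓ : ℝ) + |((x - y : ℤ) : ℝ)|) / ℓ := by
      field_simp
    rw [h4, le_div_iff₀ hl0]
    linarith

/-- the weighted energy of one block -/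
noncomputable def wterm (α : ℝ) (ℓ m j : ℕ) (p : ℤ × ℤ) : ℝ :=
  |((p.1 - p.2 : ℤ) : ℝ)| ^ (-α) * (ww ℓ m (p.1 - p.2) * dd ℓ j p.1 p.2 ^ 2)

theorem wterm_nonneg (α : ℝ) (ℓ m j : ℕ) (p : ℤ × ℤ) : 0 ≤ wterm α ℓ m j p := by
  unfold wterm
  have := Real.rpow_nonneg (abs_nonneg ((p.1 - p.2 : ℤ) : ℝ)) (-α)
  have h2 := ww_nonneg ℓ m (p.1 - p.2)
  positivity

theorem wterm_summable (α : ℝ) (hα : 1 < α) (ℓ m j : ℕ) : Summable (wterm α ℓ m j) := by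
  refine Summable.of_nonneg_of_le (wterm_nonneg α ℓ m j) (fun p => ?_)
    ((summable_term α hα (fun x => ((chi (rad ℓ j) x : ℤ) : ℝ)) (chi_sq_summable _)).mul_left (m : ℝ))
  rw [term_eq]
  unfold wterm dd
  have h1 := Real.rpow_nonneg (abs_nonneg ((p.1 - p.2 : ℤ) : ℝ)) (-α)
  have h2 : ww ℓ m (p.1 - p.2) ≤ m := min_le_left _ _
  have h3 := sq_nonneg (((chi (rad ℓ j) p.1 : ℤ) : ℝ) - ((chi (rad ℓ j) p.2 : ℤ) : ℝ))
  calc |((p.1 - p.2 : ℤ) : ℝ)| ^ (-α) * (ww ℓ m (p.1 - p.2) *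
        (((chi (rad ℓ j) p.1 : ℤ) : ℝ) - ((chi (rad ℓ j) p.2 : ℤ) : ℝ)) ^ 2)
      ≤ |((p.1 - p.2 : ℤ) : ℝ)| ^ (-α) * ((m : ℝ) *
        (((chi (rad ℓ j) p.1 : ℤ) : ℝ) - ((chi (rad ℓ j) p.2 : ℤ) : ℝ)) ^ 2) :=
        mul_le_mul_of_nonneg_left (mul_le_mul_of_nonneg_right h2 h3) h1
    _ = _ := by ring

theorem wterm_tsum (α : ℝ) (h2 : 2 < α) (h3 : α < 3) (ℓ m N : ℕ) (hN : 1 ≤ N) (hℓ : 1 ≤ ℓ)
    (hℓN : (N : ℝ) ^ (3 - α) ≤ ℓ) (hm : (m : ℝ) ≤ (N : ℝ) ^ (α - 2)) (j : ℕ)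
    (hj : rad ℓ j ≤ N) :
    ∑' p, wterm α ℓ m j p ≤
      ∑' k : ℤ, 2 * |(k : ℝ)| ^ (-(α - 1)) + (4 / (3 - α) + 12 / (α - 1)) := by
  have hs := wterm_summable α (by linarith) ℓ m j
  have hl0 : (0 : ℝ) < ℓ := by exact_mod_cast hℓ
  have hN0 : (1 : ℝ) ≤ N := by exact_mod_cast hN
  let e : (ℤ × ℤ) ≃ (ℤ × ℤ) :=
    { toFun := fun q => (q.2, q.2 - q.1)
      invFun := fun p => (p.1 - p.2, p.1)
      left_inv := fun q => by simp
      right_inv := fun p => by simp }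
  have hs' := (e.summable_iff).2 hs
  rw [← e.tsum_eq]
  have hs'' : Summable fun q : ℤ × ℤ => wterm α ℓ m j (e q) := hs'
  rw [hs''.tsum_prod]
  obtain ⟨hwS, hwT⟩ := hw_sum α h2 h3 ℓ m N hN hℓ hℓN hm
  have hg : Summable fun k : ℤ => 2 * |(k : ℝ)| ^ (-(α - 1)) :=
    (Real.summable_abs_int_rpow (by linarith)).mul_left 2
  refine le_trans (hs''.prod.tsum_le_tsum (g := fun k : ℤ => 2 * |(k : ℝ)| ^ (-(α - 1)) + hw α ℓ m N k)
    (fun k => ?_) (hg.add hwS)) ?_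
  · have h1 : ∀ x : ℤ, wterm α ℓ m j (e (k, x)) =
        |(k : ℝ)| ^ (-α) * (ww ℓ m k *
          (((chi (rad ℓ j) x : ℤ) : ℝ) - ((chi (rad ℓ j) (x - k) : ℤ) : ℝ)) ^ 2) := by
      intro x
      unfold wterm dd
      have : (e (k, x)) = (x, x - k) := rfl
      rw [this]
      simp only [sub_sub_cancel]
    simp only [h1]
    rw [tsum_mul_left, tsum_mul_left]
    obtain ⟨_, h4⟩ := chi_diff_sum (rad ℓ j) k
    have h5 := chi_diff_sum' (rad ℓ j) k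
    set D := ∑' x : ℤ, (((chi (rad ℓ j) x : ℤ) : ℝ) - ((chi (rad ℓ j) (x - k) : ℤ) : ℝ)) ^ 2 with hD
    have hD0 : 0 ≤ D := tsum_nonneg fun _ => sq_nonneg _
    rcases eq_or_ne k 0 with hk | hk
    · subst hk
      have h6 := hw_nonneg α ℓ m N 0
      simp only [Int.cast_zero, abs_zero]
      rw [Real.zero_rpow (by linarith), zero_mul, Real.zero_rpow (by linarith), mul_zero, zero_add]
      exact h6
    · have hk' : 0 < |(k : ℝ)| := abs_pos.2 (by exact_mod_cast hk)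
      have ha := Real.rpow_nonneg hk'.le (-α)
      have hw0 := ww_nonneg ℓ m k
      unfold hw
      split_ifs with hkN
      · have h6 : ww ℓ m k * D ≤ (1 + |(k : ℝ)| / ℓ) * (2 * |(k : ℝ)|) :=
          mul_le_mul (min_le_right _ _) h4 hD0 (by positivity)
        have e1 : |(k : ℝ)| ^ (-(α - 1)) = |(k : ℝ)| ^ (-α) * |(k : ℝ)| := by
          rw [← Real.rpow_add_one hk'.ne']
          congr 1
          ring
        have e2 : |(k : ℝ)| ^ (2 - α) = |(k : ℝ)| ^ (-α) * |(k : ℝ)| ^ 2 := by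
          rw [← Real.rpow_natCast, ← Real.rpow_add hk']
          congr 1
          push_cast
          ring
        calc |(k : ℝ)| ^ (-α) * (ww ℓ m k * D)
            ≤ |(k : ℝ)| ^ (-α) * ((1 + |(k : ℝ)| / ℓ) * (2 * |(k : ℝ)|)) :=
              mul_le_mul_of_nonneg_left h6 ha
          _ = _ := by
              rw [e1, e2]
              field_simp
      · have h7 : D ≤ 6 * N := by
          have : (rad ℓ j : ℝ) ≤ N := by exact_mod_cast hj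
          linarith
        have h6 : ww ℓ m k * D ≤ m * (6 * N) :=
          mul_le_mul (min_le_left _ _) h7 hD0 (Nat.cast_nonneg _)
        have h8 : 0 ≤ 2 * |(k : ℝ)| ^ (-(α - 1)) := by
          have := Real.rpow_nonneg hk'.le (-(α - 1))
          positivity
        calc |(k : ℝ)| ^ (-α) * (ww ℓ m k * D)
            ≤ |(k : ℝ)| ^ (-α) * (m * (6 * N)) := mul_le_mul_of_nonneg_left h6 ha
          _ = 6 * m * N * |(k : ℝ)| ^ (-α) := by ring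
          _ ≤ _ := by linarith
  · rw [hg.tsum_add hwS]
    linarith

/-- the constant -/
noncomputable def CC (α : ℝ) : ℝ :=
  ∑' k : ℤ, 2 * |(k : ℝ)| ^ (-(α - 1)) + (4 / (3 - α) + 12 / (α - 1))

theorem CC_nonneg (α : ℝ) (h2 : 2 < α) (h3 : α < 3) : 0 ≤ CC α := by
  unfold CC
  have h1 : 0 ≤ ∑' k : ℤ, 2 * |(k : ℝ)| ^ (-(α - 1)) :=
    tsum_nonneg fun k => mul_nonneg (by norm_num) (Real.rpow_nonneg (abs_nonneg _) _)
  have h4 : 0 < 3 - α := by linarith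
  have h5 : 0 < α - 1 := by linarith
  positivity

theorem En_psi (α : ℝ) (h2 : 2 < α) (h3 : α < 3) (ℓ m N : ℕ) (hN : 1 ≤ N) (hℓ : 1 ≤ ℓ)
    (hℓN : (N : ℝ) ^ (3 - α) ≤ ℓ) (hm : (m : ℝ) ≤ (N : ℝ) ^ (α - 2)) (hmN : m * ℓ ≤ N)
    (n : Fin m → ℤ) :
    En α (toR (psi ℓ n)) ≤ CC α * ∑ j, (n j : ℝ) ^ 2 := by
  have hterm : ∀ p : ℤ × ℤ, term α (toR (psi ℓ n)) p ≤
      ∑ j : Fin m, (n j : ℝ) ^ 2 * wterm α ℓ m j p := by
    intro p
    rw [term_eq]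
    have ha := Real.rpow_nonneg (abs_nonneg ((p.1 - p.2 : ℤ) : ℝ)) (-α)
    have h1 := psi_diff_sq ℓ n p.1 p.2
    have h4 := nsep_ww ℓ m hℓ p.1 p.2
    have hD0 : 0 ≤ ∑ j : Fin m, (n j : ℝ) ^ 2 * dd ℓ j p.1 p.2 ^ 2 :=
      Finset.sum_nonneg fun j _ => by positivity
    have h5 := h1.trans (mul_le_mul_of_nonneg_right h4 hD0)
    calc |((p.1 - p.2 : ℤ) : ℝ)| ^ (-α) * (toR (psi ℓ n) p.1 - toR (psi ℓ n) p.2) ^ 2
        ≤ |((p.1 - p.2 : ℤ) : ℝ)| ^ (-α) *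
          (ww ℓ m (p.1 - p.2) * ∑ j : Fin m, (n j : ℝ) ^ 2 * dd ℓ j p.1 p.2 ^ 2) :=
          mul_le_mul_of_nonneg_left h5 ha
      _ = _ := by
          rw [Finset.mul_sum, Finset.mul_sum]
          refine Finset.sum_congr rfl fun j _ => ?_
          unfold wterm
          ring
  have hs2 : ∀ j ∈ (Finset.univ : Finset (Fin m)), Summable fun p : ℤ × ℤ =>
      (n j : ℝ) ^ 2 * wterm α ℓ m j p :=
    fun j _ => (wterm_summable α (by linarith) ℓ m j).mul_left _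
  have hs3 : Summable fun p : ℤ × ℤ => ∑ j : Fin m, (n j : ℝ) ^ 2 * wterm α ℓ m j p :=
    summable_sum hs2
  have hs4 : Summable (term α (toR (psi ℓ n))) :=
    Summable.of_nonneg_of_le (term_nonneg _ _) hterm hs3
  calc En α (toR (psi ℓ n))
      ≤ ∑' p : ℤ × ℤ, ∑ j : Fin m, (n j : ℝ) ^ 2 * wterm α ℓ m j p :=
        hs4.tsum_le_tsum hterm hs3
    _ = ∑ j : Fin m, (n j : ℝ) ^ 2 * ∑' p, wterm α ℓ m j p := by
        rw [Summable.tsum_finsetSum hs2]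
        refine Finset.sum_congr rfl fun j _ => ?_
        rw [tsum_mul_left]
    _ ≤ ∑ j : Fin m, (n j : ℝ) ^ 2 * CC α := by
        refine Finset.sum_le_sum fun j _ => ?_
        apply mul_le_mul_of_nonneg_left _ (sq_nonneg _)
        refine wterm_tsum α h2 h3 ℓ m N hN hℓ hℓN hm j ?_
        unfold rad
        exact (Nat.mul_le_mul_right ℓ (by have := j.2; omega)).trans hmN
    _ = _ := by
        rw [← Finset.sum_mul]
        ring

/-- the additive embedding of the block amplitudes -/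
noncomputable def Psi (ℓ m N : ℕ) (hmN : m * ℓ ≤ N) : (Fin m → ℤ) →+ Om N where
  toFun n := ⟨psi ℓ n, by
    rw [mem_Om]
    intro x hx
    unfold psi
    refine Finset.sum_eq_zero fun j _ => ?_
    have h1 : rad ℓ j ≤ N := by
      unfold rad
      exact (Nat.mul_le_mul_right ℓ (by have := j.2; omega)).trans hmN
    unfold chi
    rw [if_neg, mul_zero]
    intro h2
    have h3 : ((rad ℓ j : ℕ) : ℤ) ≤ N := by exact_mod_cast h1
    linarith⟩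
  map_zero' := by
    apply Subtype.ext
    funext x
    simp [psi]
  map_add' a b := by
    apply Subtype.ext
    funext x
    simp only [psi, Pi.add_apply, AddSubgroup.coe_add, ← Finset.sum_add_distrib]
    refine Finset.sum_congr rfl fun j _ => ?_
    ring

/-- **Polynomial growth of the variance**: comparison form. -/
theorem poly_key (α β : ℝ) (h2 : 2 < α) (h3 : α < 3) (hβ : 0 < β) (N : ℕ) (hN : 1 ≤ N) :
    (N : ℝ) ^ (α - 2) / 4 * (∑' k : ℤ, (k : ℝ) ^ 2 * exp (-((β * CC α + 1) * (k : ℝ) ^ 2))) *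
        (∑' φ : Om N, exp (-(β * En α (toR φ.1)))) ≤
      (∑' φ : Om N, (φ.1 0 : ℝ) ^ 2 * exp (-(β * En α (toR φ.1)))) *
        (∑' k : ℤ, exp (-((β * CC α + 1) * (k : ℝ) ^ 2))) := by
  have hN0 : (0 : ℝ) < N := by exact_mod_cast hN
  have hN1 : (1 : ℝ) ≤ N := by exact_mod_cast hN
  set ℓ : ℕ := ⌈(N : ℝ) ^ (3 - α)⌉₊ with hℓd
  have hNp : (1 : ℝ) ≤ (N : ℝ) ^ (3 - α) := Real.one_le_rpow hN1 (by linarith)
  have hℓN : (N : ℝ) ^ (3 - α) ≤ ℓ := Nat.le_ceil _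
  have hℓ1 : 1 ≤ ℓ := by
    have : (1 : ℝ) ≤ ℓ := hNp.trans hℓN
    exact_mod_cast this
  have hl0 : (0 : ℝ) < ℓ := by exact_mod_cast hℓ1
  have hℓle : ℓ ≤ N := by
    apply Nat.ceil_le.2
    calc (N : ℝ) ^ (3 - α) ≤ (N : ℝ) ^ (1 : ℝ) := Real.rpow_le_rpow_of_exponent_le hN1 (by linarith)
      _ = N := Real.rpow_one _
  have hℓ2 : (ℓ : ℝ) ≤ 2 * (N : ℝ) ^ (3 - α) := by
    have := (Nat.ceil_lt_add_one (a := (N : ℝ) ^ (3 - α)) (by linarith)).le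
    linarith
  set m : ℕ := N / ℓ with hmd
  have hmN : m * ℓ ≤ N := Nat.div_mul_le_self N ℓ
  have hm1 : 1 ≤ m := (Nat.one_le_div_iff (by omega)).2 hℓle
  have hprod : (N : ℝ) ^ (α - 2) * (N : ℝ) ^ (3 - α) = N := by
    rw [← Real.rpow_add hN0]
    have : α - 2 + (3 - α) = 1 := by ring
    rw [this, Real.rpow_one]
  have hP0 : 0 < (N : ℝ) ^ (3 - α) := Real.rpow_pos_of_pos hN0 _
  have hm : (m : ℝ) ≤ (N : ℝ) ^ (α - 2) := by
    have h4 : (m : ℝ) * ℓ ≤ N := by exact_mod_cast hmN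
    have h5 : (m : ℝ) * (N : ℝ) ^ (3 - α) ≤ N :=
      (mul_le_mul_of_nonneg_left hℓN (Nat.cast_nonneg _)).trans h4
    exact le_of_mul_le_mul_right (h5.trans hprod.ge) hP0
  have hm4 : (N : ℝ) ^ (α - 2) / 4 ≤ m := by
    have h4 : N < (m + 1) * ℓ := by
      have := Nat.lt_div_mul_add (a := N) (b := ℓ) (by omega)
      rw [add_mul, one_mul]
      exact this
    have h5 : (N : ℝ) < ((m : ℝ) + 1) * ℓ := by exact_mod_cast h4
    have h6 : (1 : ℝ) ≤ m := by exact_mod_cast hm1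
    have h7 : (N : ℝ) ≤ (4 * (m : ℝ)) * (N : ℝ) ^ (3 - α) := by nlinarith
    have h8 := le_of_mul_le_mul_right (hprod.le.trans h7) hP0
    linarith
  have hk := key_gen α β (CC α) (β * CC α + 1) (by linarith) hβ (CC_nonneg α h2 h3) m N
    (Psi ℓ m N hmN) (fun n => by
      show psi ℓ n 0 = ∑ j, n j
      unfold psi
      refine Finset.sum_congr rfl fun j _ => ?_
      unfold chi
      rw [if_pos, mul_one]
      simp) (fun n => En_psi α h2 h3 ℓ m N hN hℓ1 hℓN hm hmN n) rfl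
  refine le_trans ?_ hk
  apply mul_le_mul_of_nonneg_right _ (tsum_nonneg fun _ => (exp_pos _).le)
  apply mul_le_mul_of_nonneg_right hm4
  exact tsum_nonneg fun k => mul_nonneg (sq_nonneg _) (exp_pos _).le

end Pool.Agent.U868.DG
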