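import Pool.Agent.U868.DG.Gen

/-!
# The energy of superpositions of equally spaced block spins
-/

set_option autoImplicit false

open Real

namespace Pool.Agent.U868.DG

/-- the radius of the `j`-th block -/
def rad (ℓ j : ℕ) : ℕ := (j + 1) * ℓ

theorem card_unif (ℓ m X Y : ℕ) (h : X < Y) :
    ℓ * ((Finset.univ : Finset (Fin m)).filter
      (fun j : Fin m => X ≤ rad ℓ j ∧ rad ℓ j < Y)).card ≤ ℓ + (Y - X) := by
  set J := (Finset.univ : Finset (Fin m)).filter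
      (fun j : Fin m => X ≤ rad ℓ j ∧ rad ℓ j < Y) with hJ
  rcases J.eq_empty_or_nonempty with h0 | h0
  · rw [h0]
    simp
  · have ha := J.min'_mem h0
    have hM := J.max'_mem h0
    have haM : J.min' h0 ≤ J.max' h0 := J.min'_le _ hM
    set a := J.min' h0 with had
    set M := J.max' h0 with hMd
    have hsub : J ⊆ Finset.Icc a M := by
      intro j hj
      rw [Finset.mem_Icc]
      exact ⟨J.min'_le j hj, J.le_max' j hj⟩
    have hcard := Finset.card_le_card hsub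
    rw [Fin.card_Icc] at hcard
    rw [hJ, Finset.mem_filter] at ha hM
    obtain ⟨t, ht⟩ : ∃ t : ℕ, (M : ℕ) = a + t := Nat.exists_eq_add_of_le haM
    have h1 : ℓ * J.card ≤ ℓ * (t + 1) := Nat.mul_le_mul_left _ (by omega)
    have h6 := ha.2.1
    have h7 := hM.2.2
    unfold rad at h6 h7
    rw [ht] at h7
    have h8 : ((a : ℕ) + t + 1) * ℓ = ((a : ℕ) + 1) * ℓ + ℓ * t := by ring
    rw [h8] at h7
    have h9 : ℓ * (t + 1) = ℓ * t + ℓ := by ring
    rw [h9] at h1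
    omega

/-- number of blocks separating two points -/
noncomputable def nsep (ℓ m : ℕ) (x y : ℤ) : ℕ :=
  ((Finset.univ : Finset (Fin m)).filter (fun j : Fin m => chi (rad ℓ j) x ≠ chi (rad ℓ j) y)).card

theorem nsep_le (ℓ m : ℕ) (x y : ℤ) : ℓ * nsep ℓ m x y ≤ ℓ + (x - y).natAbs := by
  unfold nsep
  rcases lt_trichotomy x.natAbs y.natAbs with h | h | h
  · refine le_trans ?_ (le_trans (card_unif ℓ m _ _ h) ?_)
    · apply Nat.mul_le_mul_left
      apply Finset.card_le_card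
      intro j hj
      rw [Finset.mem_filter] at hj ⊢
      refine ⟨hj.1, ?_⟩
      have h1 := hj.2
      rw [chi_eq_natAbs, chi_eq_natAbs] at h1
      split_ifs at h1 with a b b
      · exact absurd rfl h1
      · omega
      · omega
      · exact absurd rfl h1
    · omega
  · have : (Finset.univ : Finset (Fin m)).filter
      (fun j : Fin m => chi (rad ℓ j) x ≠ chi (rad ℓ j) y) = ∅ := by
      apply Finset.filter_false_of_mem
      intro j _
      rw [chi_eq_natAbs, chi_eq_natAbs, h]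
      simp
    rw [this]
    simp
  · refine le_trans ?_ (le_trans (card_unif ℓ m _ _ h) ?_)
    · apply Nat.mul_le_mul_left
      apply Finset.card_le_card
      intro j hj
      rw [Finset.mem_filter] at hj ⊢
      refine ⟨hj.1, ?_⟩
      have h1 := hj.2
      rw [chi_eq_natAbs, chi_eq_natAbs] at h1
      split_ifs at h1 with a b b
      · exact absurd rfl h1
      · omega
      · omega
      · exact absurd rfl h1
    · omega

theorem nsep_le_m (ℓ m : ℕ) (x y : ℤ) : nsep ℓ m x y ≤ m := by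
  unfold nsep
  exact (Finset.card_filter_le _ _).trans (by simp)

/-- the superposition of the equally spaced blocks -/
noncomputable def psi (ℓ : ℕ) {m : ℕ} (n : Fin m → ℤ) (x : ℤ) : ℤ :=
  ∑ j : Fin m, n j * chi (rad ℓ j) x

/-- the increment of a block spin -/
noncomputable def dd (ℓ j : ℕ) (x y : ℤ) : ℝ :=
  ((chi (rad ℓ j) x : ℤ) : ℝ) - ((chi (rad ℓ j) y : ℤ) : ℝ)

/-- pointwise bound of the increments -/
theorem psi_diff_sq (ℓ : ℕ) {m : ℕ} (n : Fin m → ℤ) (x y : ℤ) :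
    (((psi ℓ n x : ℤ) : ℝ) - ((psi ℓ n y : ℤ) : ℝ)) ^ 2 ≤
      (nsep ℓ m x y : ℝ) * ∑ j : Fin m, (n j : ℝ) ^ 2 * dd ℓ j x y ^ 2 := by
  set J := (Finset.univ : Finset (Fin m)).filter
        (fun j : Fin m => chi (rad ℓ j) x ≠ chi (rad ℓ j) y) with hJ
  have hJ' : nsep ℓ m x y = J.card := rfl
  have h1 : ((psi ℓ n x : ℤ) : ℝ) - ((psi ℓ n y : ℤ) : ℝ) = ∑ j : Fin m, (n j : ℝ) * dd ℓ j x y := by
    unfold psi
    push_cast
    rw [← Finset.sum_sub_distrib]
    refine Finset.sum_congr rfl fun j _ => ?_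
    simp only [dd]
    ring
  have h2 : ∑ j : Fin m, (n j : ℝ) * dd ℓ j x y = ∑ j ∈ J, (n j : ℝ) * dd ℓ j x y := by
    rw [hJ, Finset.sum_filter]
    refine Finset.sum_congr rfl fun j _ => ?_
    split_ifs with h
    · rfl
    · have : chi (rad ℓ j) x = chi (rad ℓ j) y := by simpa using h
      simp only [dd, this, sub_self, mul_zero]
  have h3 : ∑ j : Fin m, (n j : ℝ) ^ 2 * dd ℓ j x y ^ 2 = ∑ j ∈ J, ((n j : ℝ) * dd ℓ j x y) ^ 2 := by
    rw [hJ, Finset.sum_filter]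
    refine Finset.sum_congr rfl fun j _ => ?_
    split_ifs with h
    · ring
    · have : chi (rad ℓ j) x = chi (rad ℓ j) y := by simpa using h
      simp only [dd, this, sub_self]
      ring
  rw [h1, h2, h3, hJ']
  exact sq_sum_le_card_mul_sum_sq

/-! ## the truncated power sums -/

theorem pow_step (s : ℝ) (hs0 : 0 < s) (hs1 : s ≤ 1) (k : ℕ) (hk : 1 ≤ k) :
    (k : ℝ) ^ (s - 1) ≤ ((k : ℝ) ^ s - ((k : ℝ) - 1) ^ s) / s := by
  have hk0 : (0 : ℝ) < k := by exact_mod_cast hk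
  have hk1 : (1 : ℝ) ≤ k := by exact_mod_cast hk
  have h1 := rpow_one_add_le_one_add_mul_self (s := -(1 / (k : ℝ)))
    (by rw [neg_le_neg_iff, div_le_one hk0]; exact hk1) hs0.le hs1
  have h2 : (k : ℝ) - 1 = k * (1 + -(1 / (k : ℝ))) := by field_simp; ring
  have h3 : 0 ≤ 1 + -(1 / (k : ℝ)) := by
    have : 1 / (k : ℝ) ≤ 1 := by rw [div_le_one hk0]; exact hk1
    linarith
  rw [h2, Real.mul_rpow hk0.le h3, le_div_iff₀ hs0, Real.rpow_sub_one hk0.ne']
  have h4 : (k : ℝ) ^ s * (1 + -(1 / (k : ℝ))) ^ s ≤ (k : ℝ) ^ s * (1 + s * -(1 / (k : ℝ))) :=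
    mul_le_mul_of_nonneg_left h1 (Real.rpow_nonneg hk0.le _)
  have h5 : (k : ℝ) ^ s / k * s = (k : ℝ) ^ s - (k : ℝ) ^ s * (1 + s * -(1 / (k : ℝ))) := by
    field_simp
    ring
  linarith

theorem pow_step_neg (p : ℝ) (hp : 0 < p) (k : ℕ) (hk : 1 ≤ k) :
    ((k : ℝ) + 1) ^ (-(p + 1)) ≤ ((k : ℝ) ^ (-p) - ((k : ℝ) + 1) ^ (-p)) / p := by
  have hk0 : (0 : ℝ) < k := by exact_mod_cast hk
  have hk1 : (0 : ℝ) < (k : ℝ) + 1 := by linarith
  rw [le_div_iff₀ hp]
  -- (1 + 1/(k+1)·p) ≤ ((k+1)/k)^p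
  have h1 : 1 + p * (1 / ((k : ℝ) + 1)) ≤ (((k : ℝ) + 1) / k) ^ p := by
    have h2 : exp (p * (1 / ((k : ℝ) + 1))) ≤ (((k : ℝ) + 1) / k) ^ p := by
      rw [Real.rpow_def_of_pos (by positivity)]
      rw [exp_le_exp, mul_comm]
      apply mul_le_mul_of_nonneg_right _ hp.le
      have h3 := Real.log_le_sub_one_of_pos (x := (k : ℝ) / ((k : ℝ) + 1)) (by positivity)
      have h4 : log ((k : ℝ) / ((k : ℝ) + 1)) = - log (((k : ℝ) + 1) / k) := by
        rw [← Real.log_inv, inv_div]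
      rw [h4] at h3
      have h5 : (k : ℝ) / ((k : ℝ) + 1) - 1 = -(1 / ((k : ℝ) + 1)) := by
        field_simp
        ring
      rw [h5] at h3
      linarith
    refine le_trans ?_ h2
    have := Real.add_one_le_exp (p * (1 / ((k : ℝ) + 1)))
    linarith
  have h6 : ((k : ℝ) ^ (-p)) = ((k : ℝ) + 1) ^ (-p) * (((k : ℝ) + 1) / k) ^ p := by
    rw [Real.div_rpow hk1.le hk0.le, Real.rpow_neg hk1.le, Real.rpow_neg hk0.le]
    have : ((k : ℝ) + 1) ^ p ≠ 0 := (Real.rpow_pos_of_pos hk1 _).ne'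
    field_simp
  have h7 : ((k : ℝ) + 1) ^ (-(p + 1)) = ((k : ℝ) + 1) ^ (-p) * (1 / ((k : ℝ) + 1)) := by
    rw [neg_add, ← sub_eq_add_neg, Real.rpow_sub_one hk1.ne']
    ring
  rw [h6, h7]
  have h8 : 0 ≤ ((k : ℝ) + 1) ^ (-p) := Real.rpow_nonneg hk1.le _
  have h9 := mul_le_mul_of_nonneg_left h1 h8
  linarith

/-- the truncated weight -/
noncomputable def hw (α : ℝ) (ℓ m N : ℕ) (k : ℤ) : ℝ :=
  if |k| ≤ (N : ℤ) then 2 / (ℓ : ℝ) * |(k : ℝ)| ^ (2 - α) else 6 * m * N * |(k : ℝ)| ^ (-α)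

theorem hw_nonneg (α : ℝ) (ℓ m N : ℕ) (k : ℤ) : 0 ≤ hw α ℓ m N k := by
  unfold hw
  split_ifs
  · have := Real.rpow_nonneg (abs_nonneg (k : ℝ)) (2 - α)
    positivity
  · have := Real.rpow_nonneg (abs_nonneg (k : ℝ)) (-α)
    positivity

theorem hw_range (α : ℝ) (h2 : 2 < α) (h3 : α < 3) (ℓ m N : ℕ) (hN : 1 ≤ N) (M : ℕ) :
    ∑ k ∈ Finset.range M, hw α ℓ m N ((k : ℤ) + 1) ≤
      if M ≤ N then 2 / (ℓ : ℝ) * ((M : ℝ) ^ (3 - α) / (3 - α)) else
        2 / (ℓ : ℝ) * ((N : ℝ) ^ (3 - α) / (3 - α)) +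
          6 * m * N * (((N : ℝ) ^ (-(α - 1)) - (M : ℝ) ^ (-(α - 1))) / (α - 1)) := by
  have hs : 0 < 3 - α := by linarith
  have hp : 0 < α - 1 := by linarith
  induction M with
  | zero =>
    rw [if_pos (Nat.zero_le _)]
    simp only [Finset.range_zero, Finset.sum_empty, Nat.cast_zero]
    rw [Real.zero_rpow hs.ne']
    simp
  | succ M ih =>
    rw [Finset.sum_range_succ]
    have hMpos : (0 : ℝ) < (M : ℝ) + 1 := by positivity
    have habs : |(((M : ℤ) + 1 : ℤ) : ℝ)| = (M : ℝ) + 1 := by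
      rw [abs_of_pos (by push_cast; exact hMpos)]
      push_cast; ring
    rcases Nat.lt_or_ge N (M + 1) with h | h
    · -- M + 1 > N
      have hw1 : hw α ℓ m N ((M : ℤ) + 1) = 6 * m * N * ((M : ℝ) + 1) ^ (-α) := by
        unfold hw
        rw [if_neg, habs]
        rw [abs_of_pos (by omega)]
        omega
      rw [if_neg (by omega), hw1]
      have hM1 : 1 ≤ M := by omega
      have hstep := pow_step_neg (α - 1) hp M hM1
      rw [sub_add_cancel] at hstep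
      have hm0 : (0 : ℝ) ≤ 6 * m * N := by positivity
      have hstep2 := mul_le_mul_of_nonneg_left hstep hm0
      rcases Nat.eq_or_lt_of_le (Nat.lt_succ_iff.1 h) with h' | h'
      · -- M = N
        rw [if_pos (by omega)] at ih
        rw [← h'] at ih hstep2 ⊢
        push_cast at ih hstep2 ⊢
        linarith
      · rw [if_neg (by omega)] at ih
        push_cast at ih hstep2 ⊢
        have : ((N : ℝ) ^ (-(α - 1)) - ((M : ℝ) + 1) ^ (-(α - 1))) / (α - 1) =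
            ((N : ℝ) ^ (-(α - 1)) - (M : ℝ) ^ (-(α - 1))) / (α - 1) +
            ((M : ℝ) ^ (-(α - 1)) - ((M : ℝ) + 1) ^ (-(α - 1))) / (α - 1) := by ring
        rw [this, mul_add]
        linarith
    · rw [if_pos h]
      rw [if_pos (by omega)] at ih
      have hw1 : hw α ℓ m N ((M : ℤ) + 1) = 2 / (ℓ : ℝ) * ((M : ℝ) + 1) ^ (2 - α) := by
        unfold hw
        rw [if_pos, habs]
        rw [abs_of_pos (by omega)]
        omega
      rw [hw1]
      have hstep := pow_step (3 - α) hs (by linarith) (M + 1) (by omega)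
      have hl0 : (0 : ℝ) ≤ 2 / (ℓ : ℝ) := by positivity
      have hstep2 := mul_le_mul_of_nonneg_left hstep hl0
      push_cast at hstep2 ⊢
      have e1 : (3 - α - 1 : ℝ) = 2 - α := by ring
      have e2 : ((M : ℝ) + 1 - 1) = M := by ring
      rw [e1, e2] at hstep2
      have : ((M : ℝ) + 1) ^ (3 - α) / (3 - α) = (M : ℝ) ^ (3 - α) / (3 - α) +
          (((M : ℝ) + 1) ^ (3 - α) - (M : ℝ) ^ (3 - α)) / (3 - α) := by ring
      rw [this, mul_add]
      linarith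

/-- the total weight is bounded -/
theorem hw_sum (α : ℝ) (h2 : 2 < α) (h3 : α < 3) (ℓ m N : ℕ) (hN : 1 ≤ N) (hℓ : 1 ≤ ℓ)
    (hℓN : (N : ℝ) ^ (3 - α) ≤ ℓ) (hm : (m : ℝ) ≤ (N : ℝ) ^ (α - 2)) :
    Summable (hw α ℓ m N) ∧ ∑' k : ℤ, hw α ℓ m N k ≤ 4 / (3 - α) + 12 / (α - 1) := by
  have hs : 0 < 3 - α := by linarith
  have hp : 0 < α - 1 := by linarith
  have hN0 : (0 : ℝ) < N := by exact_mod_cast hN
  have hl0 : (0 : ℝ) < ℓ := by exact_mod_cast hℓ
  set B : ℝ := 2 / (3 - α) + 6 / (α - 1) with hB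
  have b1 : 2 / (ℓ : ℝ) * ((N : ℝ) ^ (3 - α) / (3 - α)) ≤ 2 / (3 - α) := by
    rw [div_mul_div_comm, div_le_div_iff₀ (by positivity) hs]
    nlinarith
  have b2 : 6 * (m : ℝ) * N * ((N : ℝ) ^ (-(α - 1)) / (α - 1)) ≤ 6 / (α - 1) := by
    rw [mul_div_assoc', div_le_div_iff_of_pos_right hp]
    have : (N : ℝ) * (N : ℝ) ^ (-(α - 1)) = (N : ℝ) ^ (-(α - 2)) := by
      rw [← Real.rpow_one_add' hN0.le (by linarith)]
      congr 1
      ring
    rw [mul_assoc (6 * (m : ℝ)), this]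
    have h5 : (m : ℝ) * (N : ℝ) ^ (-(α - 2)) ≤ 1 := by
      rw [Real.rpow_neg hN0.le, ← div_eq_mul_inv, div_le_one (Real.rpow_pos_of_pos hN0 _)]
      exact hm
    linarith
  have hfin : ∀ M : ℕ, ∑ k ∈ Finset.range M, hw α ℓ m N ((k : ℤ) + 1) ≤ B := by
    intro M
    refine (hw_range α h2 h3 ℓ m N hN M).trans ?_
    split_ifs with h
    · have h4 : (M : ℝ) ^ (3 - α) ≤ (N : ℝ) ^ (3 - α) :=
        Real.rpow_le_rpow (by positivity) (by exact_mod_cast h) hs.le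
      have h5 : 2 / (ℓ : ℝ) * ((M : ℝ) ^ (3 - α) / (3 - α)) ≤
          2 / (ℓ : ℝ) * ((N : ℝ) ^ (3 - α) / (3 - α)) := by
        apply mul_le_mul_of_nonneg_left _ (by positivity)
        exact (div_le_div_iff_of_pos_right hs).2 h4
      have h6 : 0 ≤ 6 / (α - 1) := by positivity
      linarith
    · have h4 : 6 * (m : ℝ) * N * (((N : ℝ) ^ (-(α - 1)) - (M : ℝ) ^ (-(α - 1))) / (α - 1)) ≤
          6 * (m : ℝ) * N * ((N : ℝ) ^ (-(α - 1)) / (α - 1)) := by
        apply mul_le_mul_of_nonneg_left _ (by positivity)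
        rw [div_le_div_iff_of_pos_right hp]
        have := Real.rpow_nonneg (Nat.cast_nonneg M : (0 : ℝ) ≤ M) (-(α - 1))
        linarith
      linarith
  have hnn : ∀ k : ℕ, 0 ≤ hw α ℓ m N ((k : ℤ) + 1) := fun k => hw_nonneg _ _ _ _ _
  have hS1 : Summable fun k : ℕ => hw α ℓ m N ((k : ℤ) + 1) :=
    summable_of_sum_range_le hnn hfin
  have hT1 : ∑' k : ℕ, hw α ℓ m N ((k : ℤ) + 1) ≤ B := Real.tsum_le_of_sum_range_le hnn hfin
  have h0 : hw α ℓ m N 0 = 0 := by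
    unfold hw
    rw [if_pos (by simp)]
    simp only [Int.cast_zero, abs_zero]
    rw [Real.zero_rpow (by linarith), mul_zero]
  have hneg : ∀ k : ℤ, hw α ℓ m N (-k) = hw α ℓ m N k := by
    intro k
    unfold hw
    rw [abs_neg, Int.cast_neg, abs_neg]
  have hP : HasSum (fun n : ℕ => hw α ℓ m N (n : ℤ)) (∑' k : ℕ, hw α ℓ m N ((k : ℤ) + 1)) := by
    rw [← hasSum_nat_add_iff' 1]
    simp only [Finset.range_one, Finset.sum_singleton, Nat.cast_zero, h0, sub_zero]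
    have := hS1.hasSum
    refine this.congr_fun ?_ |> fun h => h
    intro n
    push_cast
    rfl
  have hQ : HasSum (fun n : ℕ => hw α ℓ m N (-((n : ℤ) + 1)))
      (∑' k : ℕ, hw α ℓ m N ((k : ℤ) + 1)) := by
    simp only [hneg]
    exact hS1.hasSum
  have hT := HasSum.of_nat_of_neg_add_one hP hQ
  refine ⟨hT.summable, ?_⟩
  rw [hT.tsum_eq]
  have : 4 / (3 - α) + 12 / (α - 1) = B + B := by rw [hB]; ring
  rw [this]
  linarith

end Pool.Agent.U868.DG
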